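import Pool.Agent.Helper80.DPH.Homot

/-!
# Comparison of the standard parametrisations of a thick hyperplane
-/

namespace Pool.Agent.Helper80.DPH

open Matrix

variable {d : ℕ}

theorem linmap_comp {n : ℕ} {A B : Matrix (Fin n) (Fin n) ℝ} (hA : A.det ≠ 0) (hB : B.det ≠ 0)
    (hAB : (A * B).det ≠ 0) : (linmap A hA).comp (linmap B hB) = linmap (A * B) hAB := by
  ext1 u
  rw [ContinuousMap.comp_apply]
  apply Sph.eq_of_smul
    (r := ‖vec (A *ᵥ (linmap B hB u).co)‖⁻¹ * ‖vec (B *ᵥ u.co)‖⁻¹ * ‖vec ((A * B) *ᵥ u.co)‖)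
  · have h1 := vec_norm_pos (mulVec_ne_zero' hA (linmap B hB u).co_ne_zero)
    have h2 := vec_norm_pos (mulVec_ne_zero' hB u.co_ne_zero)
    have h3 := vec_norm_pos (mulVec_ne_zero' hAB u.co_ne_zero)
    positivity
  · have h3 := vec_norm_pos (mulVec_ne_zero' hAB u.co_ne_zero)
    have e1 : (linmap A hA (linmap B hB u)).co =
        ‖vec (A *ᵥ (linmap B hB u).co)‖⁻¹ • (A *ᵥ (linmap B hB u).co) := rfl
    have e2 : (linmap B hB u).co = ‖vec (B *ᵥ u.co)‖⁻¹ • (B *ᵥ u.co) := rfl
    have e3 : (linmap (A * B) hAB u).co =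
        ‖vec ((A * B) *ᵥ u.co)‖⁻¹ • ((A * B) *ᵥ u.co) := rfl
    have e4 : A *ᵥ (linmap B hB u).co = ‖vec (B *ᵥ u.co)‖⁻¹ • ((A * B) *ᵥ u.co) := by
      rw [e2, mulVec_smul, mulVec_mulVec]
    refine e1.trans ((congrArg (‖vec (A *ᵥ (linmap B hB u).co)‖⁻¹ • ·) e4).trans ?_)
    rw [e3]
    simp only [smul_smul]
    rw [mul_assoc _ (‖vec ((A * B) *ᵥ u.co)‖), mul_inv_cancel₀ h3.ne', mul_one]

section

variable {c : ℝ} (hc : 0 < c) (hc1 : c < 1) {M M' : Matrix (Fin (d + 1)) (Fin (d + 1)) ℝ}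
  (hM : Good c M) (hM' : Good c M') {j j' : Fin (d + 1)} {s : ℝ} (hs : s = 1 ∨ s = -1)
  (h : ∀ x : Fin (d + 1) → ℝ, (M' *ᵥ x) j' = s * (M *ᵥ x) j)

/-- `x` or `-x` -/
noncomputable def sgn (hs : s = 1 ∨ s = -1) (x : Sph (d + 1)) : Sph (d + 1) :=
  ⟨s • x.1, by
    rw [mem_sphere_zero_iff_norm, norm_smul, x.norm_eq, mul_one]
    rcases hs with h | h <;> rw [h] <;> simp⟩

theorem proj_sgn (x : Sph (d + 1)) : (proj (sgn hs x) : RP d) = proj x := by
  rw [proj_eq_iff]
  rcases hs with h | h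
  · left
    apply Subtype.ext
    change x.1 = s • x.1
    rw [h, one_smul]
  · right
    apply Subtype.ext
    change x.1 = -(s • x.1)
    rw [h, neg_smul, one_smul, neg_neg]

/-- the preimage in the sphere of a point of the standard sheet -/
noncomputable def xx (j : Fin (d + 1)) (u : Sph d) : Sph (d + 1) :=
  (fhom hc hc1 hM).symm (theta hc hc1 j u)

theorem continuous_xx : Continuous (xx hc hc1 hM j) :=
  (fhom hc hc1 hM).symm.continuous.comp (continuous_theta hc hc1 j)

theorem continuous_sgn : Continuous (sgn (d := d) hs) := by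
  apply Continuous.subtype_mk
  exact (continuous_const (y := s)).smul continuous_subtype_val

include h in
theorem sgn_coord (u : Sph d) : (M' *ᵥ (sgn hs (xx hc hc1 hM j u)).co) j' = c := by
  have h1 : (sgn hs (xx hc hc1 hM j u)).co = s • (xx hc hc1 hM j u).co := rfl
  rw [h1, mulVec_smul, Pi.smul_apply, h, smul_eq_mul, xx, phi_coord, ← mul_assoc]
  rcases hs with h | h <;> rw [h] <;> ring

/-- the point of the cube for the second matrix -/
noncomputable def zz (hs : s = 1 ∨ s = -1) (j : Fin (d + 1)) (u : Sph d) : Cb (d + 1) :=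
  fhom hc hc1 hM' (sgn hs (xx hc hc1 hM j u))

include h in
theorem zz_coord (u : Sph d) : (zz hc hc1 hM hM' hs j u).1 j' = c :=
  (fhom_eq_iff hc hc1 hM' _ j').2 (sgn_coord hc hc1 hM hs h u)

/-- first stage -/
noncomputable def F0 (hs : s = 1 ∨ s = -1) (j j' : Fin (d + 1)) : C(Sph d, Fin d → ℝ) where
  toFun u := fun i => (zz hc hc1 hM hM' hs j u).1 (j'.succAbove i)
  continuous_toFun := by
    apply continuous_pi
    intro i
    exact (continuous_apply _).comp (continuous_subtype_val.comp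
      ((fhom hc hc1 hM').continuous.comp ((continuous_sgn hs).comp (continuous_xx hc hc1 hM))))

include h in
theorem F0_ne (u : Sph d) : F0 hc hc1 hM hM' hs j j' u ≠ 0 :=
  Cb.removeNth_ne_zero hc1 (zz_coord hc hc1 hM hM' hs h u) hc

/-- the transition map between the two parametrisations -/
noncomputable def vmap : C(Sph d, Sph d) := nrmC (F0 hc hc1 hM hM' hs j j')
  (F0_ne hc hc1 hM hM' hs h)

theorem phiFun_vmap (u : Sph d) :
    phiFun hc hc1 hM' j' (vmap hc hc1 hM hM' hs h u) = phiFun hc hc1 hM j u := by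
  have h1 : theta hc hc1 j' (vmap hc hc1 hM hM' hs h u) = zz hc hc1 hM hM' hs j u :=
    theta_nrm hc hc1 (zz_coord hc hc1 hM hM' hs h u)
  rw [phiFun, h1, zz, Homeomorph.symm_apply_apply, proj_sgn]
  rfl

/-- second stage: without the straightening of the target -/
noncomputable def F1 (M' : Matrix (Fin (d + 1)) (Fin (d + 1)) ℝ) (hs : s = 1 ∨ s = -1)
    (j j' : Fin (d + 1)) : C(Sph d, Fin d → ℝ) where
  toFun u := fun i => (M' *ᵥ (sgn hs (xx hc hc1 hM j u)).co) (j'.succAbove i)
  continuous_toFun := by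
    apply continuous_pi
    intro i
    exact (continuous_apply _).comp (Continuous.matrix_mulVec continuous_const
      (continuous_co.comp ((continuous_sgn hs).comp (continuous_xx hc hc1 hM))))

theorem F1_F0 (u : Sph d) (k : Fin d) :
    ∃ μ : ℝ, 0 < μ ∧ F0 hc hc1 hM hM' hs j j' u k = μ * F1 hc hc1 hM M' hs j j' u k :=
  exists_fhom_eq_mul hc hc1 hM' _ _

include h hM' in
theorem F1_ne (u : Sph d) : F1 hc hc1 hM M' hs j j' u ≠ 0 := by
  intro h0
  apply F0_ne hc hc1 hM hM' hs h u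
  funext k
  obtain ⟨μ, -, h2⟩ := F1_F0 hc hc1 hM hM' hs (j := j) (j' := j') u k
  rw [h2, h0, Pi.zero_apply, mul_zero]

/-- the coordinates of the preimage other than the `j`-th one -/
noncomputable def ww (j : Fin (d + 1)) : C(Sph d, Fin d → ℝ) where
  toFun u := fun i => (M *ᵥ (xx hc hc1 hM j u).co) (j.succAbove i)
  continuous_toFun := by
    apply continuous_pi
    intro i
    exact (continuous_apply _).comp (Continuous.matrix_mulVec continuous_const
      (continuous_co.comp (continuous_xx hc hc1 hM)))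

theorem ww_sign (u : Sph d) (k : Fin d) :
    ∃ μ : ℝ, 0 < μ ∧ ww hc hc1 hM j u k = μ * u.co k := by
  obtain ⟨μ, hμ, h1⟩ := exists_fhom_eq_mul hc hc1 hM (xx hc hc1 hM j u) (j.succAbove k)
  rw [xx, Homeomorph.apply_symm_apply, theta_succAbove] at h1
  have hu : 0 < ‖u.co‖ := norm_pos_iff.2 u.co_ne_zero
  refine ⟨μ⁻¹ * ‖u.co‖⁻¹, by positivity, ?_⟩
  have h2 : ww hc hc1 hM j u k =
    (M *ᵥ ((fhom hc hc1 hM).symm (theta hc hc1 j u)).co) (j.succAbove k) := rfl
  rw [mul_assoc, h1, ← mul_assoc, inv_mul_cancel₀ hμ.ne', one_mul, h2]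

theorem M_xx (u : Sph d) :
    M *ᵥ (xx hc hc1 hM j u).co = j.insertNth c (ww hc hc1 hM j u) := by
  funext k
  refine Fin.succAboveCases j ?_ (fun i => ?_) k
  · rw [Fin.insertNth_apply_same]
    exact phi_coord hc hc1 hM j u
  · rw [Fin.insertNth_apply_succAbove]
    rfl

/-- the transition matrix -/
noncomputable def TT (s : ℝ) (M M' : Matrix (Fin (d + 1)) (Fin (d + 1)) ℝ) :
    Matrix (Fin (d + 1)) (Fin (d + 1)) ℝ := s • (M' * M⁻¹)

include hM in
theorem TT_mulVec (x : Fin (d + 1) → ℝ) : TT s M M' *ᵥ (M *ᵥ x) = M' *ᵥ (s • x) := by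
  have hu : IsUnit M.det := isUnit_iff_ne_zero.2 hM.det_ne
  rw [TT, smul_mulVec, mulVec_mulVec, Matrix.mul_assoc, nonsing_inv_mul _ hu, Matrix.mul_one,
    mulVec_smul]

include hs hM h in
theorem TT_row (y : Fin (d + 1) → ℝ) : (TT s M M' *ᵥ y) j' = y j := by
  obtain ⟨x, rfl⟩ := hM.exists_preimage y
  rw [TT_mulVec hM, mulVec_smul, Pi.smul_apply, h, smul_eq_mul, ← mul_assoc]
  rcases hs with h | h <;> rw [h] <;> ring

theorem mulVec_insertNth (T : Matrix (Fin (d + 1)) (Fin (d + 1)) ℝ) (a : ℝ) (w : Fin d → ℝ)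
    (j : Fin (d + 1)) (k : Fin (d + 1)) :
    (T *ᵥ (j.insertNth a w : Fin (d + 1) → ℝ)) k =
      T k j * a + ∑ i, T k (j.succAbove i) * w i := by
  rw [mulVec, dotProduct, Fin.sum_univ_succAbove _ j, Fin.insertNth_apply_same]
  simp only [Fin.insertNth_apply_succAbove]

include hs hM h in
theorem TT_row_same : TT s M M' j' j = 1 := by
  have := TT_row hM hs h (Pi.single j 1)
  simpa using this

include hs hM h in
theorem TT_row_ne {k : Fin (d + 1)} (hk : k ≠ j) : TT s M M' j' k = 0 := by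
  have := TT_row hM hs h (Pi.single k 1)
  simpa [hk, Ne.symm hk] using this

/-- the reduced transition matrix -/
noncomputable def BB (s : ℝ) (M M' : Matrix (Fin (d + 1)) (Fin (d + 1)) ℝ) (j j' : Fin (d + 1)) :
    Matrix (Fin d) (Fin d) ℝ := (TT s M M').submatrix j'.succAbove j.succAbove

include hs hM h in
theorem det_BB : (-1) ^ ((j' : ℕ) + (j : ℕ)) * (BB s M M' j j').det =
    s ^ (d + 1) * (M'.det * M.det⁻¹) := by
  have h1 : (TT s M M').det = s ^ (d + 1) * (M'.det * M.det⁻¹) := by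
    rw [TT, det_smul, det_mul, det_nonsing_inv, Fintype.card_fin, Ring.inverse_eq_inv']
  have h2 := det_succ_row (TT s M M') j'
  rw [Finset.sum_eq_single j] at h2
  · rw [TT_row_same hM hs h, mul_one] at h2
    rw [← h1, h2]
    rfl
  · intro k _ hk
    rw [TT_row_ne hM hs h hk, mul_zero, zero_mul]
  · intro hj
    exact absurd (Finset.mem_univ j) hj

/-- intermediate stage -/
theorem F1_eq (u : Sph d) (k : Fin d) : F1 hc hc1 hM M' hs j j' u k =
    TT s M M' (j'.succAbove k) j * c + (BB s M M' j j' *ᵥ ww hc hc1 hM j u) k := by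
  have h1 : F1 hc hc1 hM M' hs j j' u k =
      (M' *ᵥ (s • (xx hc hc1 hM j u).co)) (j'.succAbove k) := rfl
  rw [h1, ← TT_mulVec hM, M_xx, mulVec_insertNth]
  rfl

include hs hM hM' h in
/-- the key non-vanishing statement -/
theorem middle_ne (u : Sph d) {t : ℝ} (ht0 : 0 ≤ t) (ht1 : t ≤ 1) :
    (fun k => TT s M M' (j'.succAbove k) j * (t * c) +
      (BB s M M' j j' *ᵥ ww hc hc1 hM j u) k) ≠ 0 := by
  intro h0
  -- the vector with the `j`-th coordinate shrunk
  set y : Fin (d + 1) → ℝ := j.insertNth (t * c) (ww hc hc1 hM j u) with hy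
  obtain ⟨p, hp⟩ := hM.exists_preimage y
  have hT : TT s M M' *ᵥ y = Pi.single j' (t * c) := by
    funext k
    refine Fin.succAboveCases j' ?_ (fun i => ?_) k
    · rw [TT_row hM hs h, hy, Fin.insertNth_apply_same, Pi.single_eq_same]
    · rw [Pi.single_eq_of_ne (Fin.succAbove_ne j' i), hy, mulVec_insertNth]
      exact congrFun h0 i
  obtain ⟨q1, hq1⟩ := hM'.exists_preimage (Pi.single j' c)
  obtain ⟨q2, hq2⟩ := hM.exists_preimage (Pi.single j c)
  have hn1 : ‖vec q1‖ < 1 := by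
    apply hM'.small
    rw [hq1, Pi.norm_single, Real.norm_of_nonneg hc.le]
  have hn2 : ‖vec q2‖ < 1 := by
    apply hM.small
    rw [hq2, Pi.norm_single, Real.norm_of_nonneg hc.le]
  have e1 : s • p = t • q1 := by
    apply hM'.injective
    rw [← TT_mulVec hM, hp, hT, mulVec_smul, hq1]
    funext k
    by_cases hk : k = j'
    · subst hk; simp
    · simp [hk]
  have e2 : (xx hc hc1 hM j u).co = p + (1 - t) • q2 := by
    apply hM.injective
    rw [M_xx, mulVec_add, mulVec_smul, hp, hq2, hy]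
    funext k
    refine Fin.succAboveCases j ?_ (fun i => ?_) k
    · simp; ring
    · simp [Fin.succAbove_ne]
  have hp1 : ‖vec p‖ ≤ t := by
    have h1 : ‖vec (s • p)‖ = ‖vec p‖ := by
      have : vec (s • p) = s • vec p := rfl
      rw [this, norm_smul]
      rcases hs with h | h <;> rw [h] <;> simp
    have h2 : ‖vec (t • q1)‖ = t * ‖vec q1‖ := by
      have : vec (t • q1) = t • vec q1 := rfl
      rw [this, norm_smul, Real.norm_of_nonneg ht0]
    rw [← h1, e1, h2]
    nlinarith [norm_nonneg (vec q1)]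
  have hp2 : t = 1 → ‖vec p‖ < 1 := by
    intro ht
    have h1 : ‖vec (s • p)‖ = ‖vec p‖ := by
      have : vec (s • p) = s • vec p := rfl
      rw [this, norm_smul]
      rcases hs with h | h <;> rw [h] <;> simp
    rw [← h1, e1, ht, one_smul]
    exact hn1
  have e3 : (xx hc hc1 hM j u).1 = vec p + (1 - t) • vec q2 := congrArg (WithLp.toLp 2) e2
  have h5 : ‖(xx hc hc1 hM j u).1‖ ≤ ‖vec p‖ + (1 - t) * ‖vec q2‖ := by
    rw [e3]
    refine (norm_add_le _ _).trans ?_
    rw [norm_smul, Real.norm_of_nonneg (by linarith)]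
  rw [(xx hc hc1 hM j u).norm_eq] at h5
  rcases ht1.eq_or_lt with h6 | h6
  · have := hp2 h6
    rw [h6] at h5
    linarith
  · have := mul_lt_mul_of_pos_left hn2 (sub_pos.2 h6)
    linarith

/-- third stage: a linear map applied to `ww` -/
noncomputable def F2 (M' : Matrix (Fin (d + 1)) (Fin (d + 1)) ℝ) (s : ℝ)
    (j j' : Fin (d + 1)) : C(Sph d, Fin d → ℝ) where
  toFun u := BB s M M' j j' *ᵥ ww hc hc1 hM j u
  continuous_toFun := Continuous.matrix_mulVec continuous_const (ww hc hc1 hM j).continuous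

theorem ww_ne (u : Sph d) : ww hc hc1 hM j u ≠ 0 := by
  intro h0
  apply u.co_ne_zero
  funext k
  obtain ⟨μ, hμ, h2⟩ := ww_sign hc hc1 hM (j := j) u k
  rw [h0, Pi.zero_apply] at h2
  rcases mul_eq_zero.1 h2.symm with h3 | h3
  · exact absurd h3 hμ.ne'
  · exact h3

theorem vmap_homotopic (hB : (BB s M M' j j').det ≠ 0) :
    ContinuousMap.Homotopic (vmap hc hc1 hM hM' hs h) (linmap (BB s M M' j j') hB) := by
  have hF1 := F1_ne hc hc1 hM hM' hs h
  have hF2 : ∀ u, F2 hc hc1 hM M' s j j' u ≠ 0 := fun u =>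
    mulVec_ne_zero' hB (ww_ne hc hc1 hM u)
  have s1 : ContinuousMap.Homotopic (nrmC (F1 hc hc1 hM M' hs j j') hF1)
      (vmap hc hc1 hM hM' hs h) :=
    nrmC_homotopic_sign _ _ _ _ fun u k => F1_F0 hc hc1 hM hM' hs u k
  have s2 : ContinuousMap.Homotopic (nrmC (F2 hc hc1 hM M' s j j') hF2)
      (nrmC (F1 hc hc1 hM M' hs j j') hF1) := by
    apply nrmC_homotopic _ _ _ _ (fun p : unitInterval × Sph d => fun k =>
      TT s M M' (j'.succAbove k) j * ((p.1 : ℝ) * c) +
      (BB s M M' j j' *ᵥ ww hc hc1 hM j p.2) k)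
    · apply continuous_pi
      intro k
      have h1 : Continuous fun p : unitInterval × Sph d =>
          (BB s M M' j j' *ᵥ ww hc hc1 hM j p.2) k :=
        (continuous_apply k).comp (Continuous.matrix_mulVec continuous_const
          ((ww hc hc1 hM j).continuous.comp continuous_snd))
      have h2 : Continuous fun p : unitInterval × Sph d =>
          TT s M M' (j'.succAbove k) j * ((p.1 : ℝ) * c) := by fun_prop
      exact h2.add h1
    · intro u
      funext k
      simp [F2]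
    · intro u
      funext k
      rw [F1_eq]
      simp
    · intro t u
      exact middle_ne hc hc1 hM hM' hs h u t.2.1 t.2.2
  have s3 : ContinuousMap.Homotopic (linmap (BB s M M' j j') hB)
      (nrmC (F2 hc hc1 hM M' s j j') hF2) := by
    apply nrmC_homotopic_line
    intro t ht0 ht1 u
    have h1 : (1 - t) • (linF (BB s M M' j j') u) + t • F2 hc hc1 hM M' s j j' u =
        BB s M M' j j' *ᵥ ((1 - t) • u.co + t • ww hc hc1 hM j u) := by
      rw [mulVec_add, mulVec_smul, mulVec_smul]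
      rfl
    rw [h1]
    apply mulVec_ne_zero' hB
    intro h0
    obtain ⟨k, hk⟩ := Function.ne_iff.1 u.co_ne_zero
    have hk : u.co k ≠ 0 := hk
    obtain ⟨μ, hμ, h2⟩ := ww_sign hc hc1 hM (j := j) u k
    have h3 := congrFun h0 k
    simp only [Pi.add_apply, Pi.smul_apply, smul_eq_mul, Pi.zero_apply, h2] at h3
    have h4 : u.co k * ((1 - t) + t * μ) = 0 := by rw [← h3]; ring
    rcases mul_eq_zero.1 h4 with h5 | h5
    · exact hk h5
    · rcases ht0.eq_or_lt with h6 | h6
      · rw [← h6] at h5; norm_num at h5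
      · have := mul_pos h6 hμ
        linarith
  exact (s1.symm.trans s2.symm).trans s3.symm

include hs h in
/-- Comparison of two standard parametrisations of the same thick hyperplane. -/
theorem phi_homotopic {X : Set (RP d)} (hX : hyp c M j = X) (hX' : hyp c M' j' = X)
    {R : Matrix (Fin d) (Fin d) ℝ} (hR : R.det ≠ 0)
    (hdet : 0 < (-1) ^ ((j' : ℕ) + (j : ℕ)) * (s ^ (d + 1) * (M'.det * M.det⁻¹)) * R.det) :
    ContinuousMap.Homotopic ((phi hc hc1 hM j hX : C(Sph d, X)).comp (linmap R hR))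
      (phi hc hc1 hM' j' hX' : C(Sph d, X)) := by
  have h1 := det_BB hM hs h
  rw [← h1, ← mul_assoc, ← mul_pow, neg_one_mul, neg_neg, one_pow, one_mul] at hdet
  have hB : (BB s M M' j j').det ≠ 0 := by
    intro h0
    rw [h0, zero_mul] at hdet
    exact lt_irrefl _ hdet
  have hBR : 0 < (BB s M M' j j' * R).det := by rw [det_mul]; exact hdet
  have h2 := vmap_homotopic hc hc1 hM hM' hs h hB
  have h3 : ContinuousMap.Homotopic ((vmap hc hc1 hM hM' hs h).comp (linmap R hR))
      (ContinuousMap.id _) := by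
    refine (h2.comp (ContinuousMap.Homotopic.refl (linmap R hR))).trans ?_
    rw [linmap_comp hB hR hBR.ne']
    exact linmap_homotopic_id _ hBR
  have h4 : (phi hc hc1 hM j hX : C(Sph d, X)).comp (linmap R hR) =
      (phi hc hc1 hM' j' hX' : C(Sph d, X)).comp
        ((vmap hc hc1 hM hM' hs h).comp (linmap R hR)) := by
    ext1 u
    apply Subtype.ext
    change phiFun hc hc1 hM j (linmap R hR u) =
      phiFun hc hc1 hM' j' (vmap hc hc1 hM hM' hs h (linmap R hR u))
    rw [phiFun_vmap]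
  rw [h4]
  have h5 := (ContinuousMap.Homotopic.refl (phi hc hc1 hM' j' hX' : C(Sph d, X))).comp h3
  rwa [ContinuousMap.comp_id] at h5

end

end Pool.Agent.Helper80.DPH
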