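import Pool.Agent.Helper80.DPH.Coherent

/-!
# Arrangements of thick hyperplanes given by linear forms in general position
-/

namespace Pool.Agent.Helper80.DPH

open Matrix

variable {d : ℕ}

/-- For an invertible matrix all sufficiently small constants are good. -/
theorem eventually_good {m : ℕ} {M : Matrix (Fin m) (Fin m) ℝ} (hM : M.det ≠ 0) :
    ∀ᶠ c in nhdsWithin (0 : ℝ) (Set.Ioi 0), Good c M := by
  have hu : IsUnit M.det := isUnit_iff_ne_zero.2 hM
  set T : (Fin m → ℝ) →L[ℝ] EuclideanSpace ℝ (Fin m) :=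
    ((WithLp.linearEquiv 2 ℝ (Fin m → ℝ)).symm.toLinearMap ∘ₗ
      (Matrix.toLin' M⁻¹)).toContinuousLinearMap with hT
  have hTa : ∀ x : Fin m → ℝ, T (M *ᵥ x) = vec x := by
    intro x
    have : T (M *ᵥ x) = vec (M⁻¹ *ᵥ (M *ᵥ x)) := rfl
    rw [this, mulVec_mulVec, nonsing_inv_mul _ hu, one_mulVec]
  have hpos : 0 < 1 / (‖T‖ + 1) := by positivity
  filter_upwards [Ioo_mem_nhdsGT hpos] with c hc
  refine ⟨hM, fun x hx => ?_⟩
  rw [← hTa]
  calc ‖T (M *ᵥ x)‖ ≤ ‖T‖ * ‖M *ᵥ x‖ := T.le_opNorm _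
    _ ≤ ‖T‖ * c := mul_le_mul_of_nonneg_left hx (norm_nonneg _)
    _ < (‖T‖ + 1) * (1 / (‖T‖ + 1)) := by
        have h1 : (‖T‖ + 1) * c < (‖T‖ + 1) * (1 / (‖T‖ + 1)) :=
          mul_lt_mul_of_pos_left hc.2 (by positivity)
        nlinarith [hc.1]
    _ = 1 := by
        field_simp

/-- the thick hyperplane given by a linear form -/
def thick (c : ℝ) (ℓ : Fin (d + 1) → ℝ) : Set (RP d) := proj '' {x | |ℓ ⬝ᵥ x.co| = c}

/-- linear forms in general position together with a good constant -/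
structure Conf (d : ℕ) (I : Type) (c : ℝ) where
  /-- the linear forms -/
  L : I → Fin (d + 1) → ℝ
  good : ∀ e : Fin (d + 1) → I, Function.Injective e → Good c (Matrix.of fun j => L (e j))

/-- a matrix whose rows are the forms of the configuration up to sign, with positive
determinant -/
structure Frame {d : ℕ} {I : Type} {c : ℝ} (C : Conf d I c) (e : Fin (d + 1) → I) where
  /-- the matrix -/
  M : Matrix (Fin (d + 1)) (Fin (d + 1)) ℝ
  /-- the signs -/
  ε : Fin (d + 1) → ℝ
  hε : ∀ j, ε j = 1 ∨ ε j = -1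
  rows : ∀ j, M j = ε j • C.L (e j)
  good : Good c M
  pos : 0 < M.det

variable {I : Type} {c : ℝ}

theorem hyp_eq_thick {M : Matrix (Fin (d + 1)) (Fin (d + 1)) ℝ} {j : Fin (d + 1)}
    {ℓ : Fin (d + 1) → ℝ} {ε : ℝ} (hε : ε = 1 ∨ ε = -1) (h : M j = ε • ℓ) :
    hyp c M j = thick c ℓ := by
  have : ∀ x : Sph (d + 1), |(M *ᵥ x.co) j| = |ℓ ⬝ᵥ x.co| := by
    intro x
    have h1 : (M *ᵥ x.co) j = M j ⬝ᵥ x.co := rfl
    rw [h1, h, smul_dotProduct, smul_eq_mul, abs_mul]
    rcases hε with h | h <;> rw [h] <;> simp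
  rw [hyp, thick]
  simp only [this]

theorem Frame.hyp_eq {C : Conf d I c} {e : Fin (d + 1) → I} (F : Frame C e) (j : Fin (d + 1)) :
    hyp c F.M j = thick c (C.L (e j)) := hyp_eq_thick (F.hε j) (F.rows j)

theorem exists_frame (C : Conf d I c) {e : Fin (d + 1) → I} (he : Function.Injective e) :
    Nonempty (Frame C e) := by
  have hg := C.good e he
  rcases lt_or_gt_of_ne hg.det_ne with hneg | hpos
  · set σ : Fin (d + 1) → ℝ := fun j => if j = 0 then -1 else 1 with hσ
    have hσ' : ∀ j, σ j = 1 ∨ σ j = -1 := by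
      intro j
      rw [hσ]
      by_cases h : j = 0 <;> simp [h]
    set M : Matrix (Fin (d + 1)) (Fin (d + 1)) ℝ :=
      Matrix.of fun j => σ j • C.L (e j) with hM
    have hdiag : M = diagonal σ * Matrix.of fun j => C.L (e j) := by
      ext j k
      rw [diagonal_mul, hM]
      rfl
    have hdet : M.det = -(Matrix.of fun j => C.L (e j)).det := by
      rw [hdiag, det_mul, det_diagonal]
      have : ∏ j, σ j = -1 := by
        rw [hσ, Finset.prod_ite_eq' Finset.univ (0 : Fin (d + 1)) (fun _ => (-1 : ℝ))]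
        simp
      rw [this, neg_one_mul]
    have hpos : 0 < M.det := by rw [hdet]; linarith
    refine ⟨⟨M, σ, hσ', fun j => rfl, ⟨hpos.ne', ?_⟩, hpos⟩⟩
    intro x hx
    apply hg.small x
    refine le_trans (le_of_eq ?_) hx
    have habs : ∀ j, ‖(M *ᵥ x) j‖ = ‖((Matrix.of fun j => C.L (e j)) *ᵥ x) j‖ := by
      intro j
      have h1 : (M *ᵥ x) j = σ j * ((Matrix.of fun j => C.L (e j)) *ᵥ x) j := by
        rw [hdiag, ← mulVec_mulVec, mulVec_diagonal]
      rw [h1, norm_mul]
      rcases hσ' j with h | h <;> rw [h] <;> simp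
    apply le_antisymm
    · rw [pi_norm_le_iff_of_nonneg (norm_nonneg _)]
      intro j
      rw [← habs]
      exact norm_le_pi_norm _ j
    · rw [pi_norm_le_iff_of_nonneg (norm_nonneg _)]
      intro j
      rw [habs]
      exact norm_le_pi_norm _ j
  · exact ⟨⟨_, fun _ => 1, fun _ => Or.inl rfl, fun j => by rw [one_smul]; rfl, hg, hpos⟩⟩

/-! ### The standard position -/

theorem doubleHyperplane_eq (i : Fin (d + 1)) {a : ℝ} (ha : 0 ≤ a) :
    doubleHyperplane d i a = proj '' {x | |x.co i| = a} := by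
  rw [doubleHyperplane]
  congr 1
  ext x
  exact (abs_eq ha).symm

theorem hyp_diagonal {D : Fin (d + 1) → ℝ} {j : Fin (d + 1)} (hD : 0 < D j) {a : ℝ}
    (ha : 0 ≤ a) (h : D j * a = c) : hyp c (diagonal D) j = doubleHyperplane d j a := by
  rw [doubleHyperplane_eq j ha, hyp]
  congr 1
  ext x
  simp only [Set.mem_ofPred_eq, mulVec_diagonal, abs_mul, abs_of_pos hD]
  rw [← h]
  constructor
  · intro h1
    exact mul_left_cancel₀ hD.ne' h1
  · intro h1
    rw [h1]

theorem vec_norm_sq {m : ℕ} (x : Fin m → ℝ) : ‖vec x‖ ^ 2 = ∑ k, (x k) ^ 2 := by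
  rw [EuclideanSpace.norm_sq_eq]
  simp

/-- diagonal matrices for which the constant `c` is good -/
theorem good_diagonal (hc : 0 < c) {D : Fin (d + 1) → ℝ} (hD : ∀ j, 0 < D j)
    (h : ∑ j, (c / D j) ^ 2 < 1) : Good c (diagonal D) := by
  refine ⟨?_, fun x hx => ?_⟩
  · rw [det_diagonal]
    exact (Finset.prod_pos fun j _ => hD j).ne'
  · have h1 : ∀ j, |x j| ≤ c / D j := by
      intro j
      rw [le_div_iff₀ (hD j)]
      have h2 := (norm_le_pi_norm (diagonal D *ᵥ x) j).trans hx
      rw [mulVec_diagonal, norm_mul, Real.norm_of_nonneg (hD j).le, Real.norm_eq_abs] at h2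
      linarith
    have h3 : ‖vec x‖ ^ 2 < 1 := by
      rw [vec_norm_sq]
      refine lt_of_le_of_lt (Finset.sum_le_sum fun j _ => ?_) h
      rw [← sq_abs (x j)]
      exact pow_le_pow_left₀ (abs_nonneg _) (h1 j) 2
    have h4 := norm_nonneg (vec x)
    nlinarith

theorem exists_std_single (hc : 0 < c) :
    ∃ M : Matrix (Fin (d + 1)) (Fin (d + 1)) ℝ, Good c M ∧
      hyp c M 0 = doubleHyperplane d 0 (1 / √2) := by
  have h2 : (0 : ℝ) < √2 := Real.sqrt_pos.2 (by norm_num)
  set D : Fin (d + 1) → ℝ := Fin.cons (c * √2) (fun _ => c * (2 * (d + 1))) with hD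
  have hDpos : ∀ j, 0 < D j := by
    intro j
    refine Fin.cases ?_ (fun i => ?_) j
    · rw [hD, Fin.cons_zero]; positivity
    · rw [hD, Fin.cons_succ]; positivity
  refine ⟨diagonal D, good_diagonal hc hDpos ?_, hyp_diagonal (hDpos 0) (by positivity) ?_⟩
  · rw [Fin.sum_univ_succ]
    simp only [hD, Fin.cons_zero, Fin.cons_succ, Finset.sum_const, Finset.card_univ,
      Fintype.card_fin, nsmul_eq_mul]
    have e1 : (c / (c * √2)) ^ 2 = 1 / 2 := by
      rw [div_mul_eq_div_div, div_self hc.ne', div_pow, Real.sq_sqrt (by norm_num)]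
      norm_num
    have e2 : c / (c * (2 * ((d : ℝ) + 1))) = 1 / (2 * ((d : ℝ) + 1)) := by
      rw [div_mul_eq_div_div, div_self hc.ne']
    rw [e1, e2]
    have hd : (0 : ℝ) ≤ d := Nat.cast_nonneg d
    have e3 : (d : ℝ) * (1 / (2 * ((d : ℝ) + 1))) ^ 2 < 1 / 2 := by
      rw [div_pow, one_pow, mul_one_div, div_lt_div_iff₀ (by positivity) (by norm_num)]
      nlinarith
    linarith
  · rw [hD, Fin.cons_zero, mul_assoc, mul_one_div, div_self h2.ne', mul_one]

theorem exists_std (hd : 2 ≤ d) (hc : 0 < c) :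
    ∃ M : Matrix (Fin (d + 1)) (Fin (d + 1)) ℝ, Good c M ∧
      ∀ k : Fin d, hyp c M k.castSucc = doubleHyperplane d k.castSucc (1 / √(2 * (d : ℝ))) := by
  have hd' : (2 : ℝ) ≤ d := by exact_mod_cast hd
  have h2 : (0 : ℝ) < √(2 * (d : ℝ)) := Real.sqrt_pos.2 (by linarith)
  set D : Fin (d + 1) → ℝ := fun _ => c * √(2 * (d : ℝ)) with hD
  have hDpos : ∀ j, 0 < D j := fun j => by rw [hD]; positivity
  refine ⟨diagonal D, good_diagonal hc hDpos ?_, fun k => hyp_diagonal (hDpos _) (by positivity) ?_⟩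
  · simp only [hD, Finset.sum_const, Finset.card_univ, Fintype.card_fin, nsmul_eq_mul]
    have e1 : (c / (c * √(2 * (d : ℝ)))) ^ 2 = 1 / (2 * d) := by
      rw [div_mul_eq_div_div, div_self hc.ne', div_pow, Real.sq_sqrt (by linarith), one_pow]
    rw [e1, mul_one_div, div_lt_one (by linarith)]
    push_cast
    linarith
  · rw [hD]
    field_simp

/-! ### The arrangement -/

section

variable (hc : 0 < c) (hc1 : c < 1)

theorem exists_extend [Finite I] (hI : d + 1 ≤ Nat.card I) (e : Fin d ↪ I) :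
    ∃ e' : Fin (d + 1) → I, Function.Injective e' ∧ ∀ k : Fin d, e' k.castSucc = e k := by
  have hex : ∃ i : I, ∀ k, e k ≠ i := by
    by_contra hcon
    push Not at hcon
    have hsurj : Function.Surjective e := hcon
    have := Nat.card_le_card_of_surjective e hsurj
    have h2 : Nat.card (Fin d) = d := by simp
    omega
  obtain ⟨i, hi⟩ := hex
  refine ⟨Fin.snoc e i, ?_, fun k => by rw [Fin.snoc_castSucc]⟩
  intro p q
  refine Fin.lastCases ?_ (fun p => ?_) p
  · refine Fin.lastCases ?_ (fun q => ?_) q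
    · intro _; rfl
    · intro h
      rw [Fin.snoc_last, Fin.snoc_castSucc] at h
      exact absurd h.symm (hi q)
  · refine Fin.lastCases ?_ (fun q => ?_) q
    · intro h
      rw [Fin.snoc_last, Fin.snoc_castSucc] at h
      exact absurd h (hi p)
    · intro h
      rw [Fin.snoc_castSucc, Fin.snoc_castSucc] at h
      rw [e.injective h]

theorem exists_inj_zero [Finite I] (hI : d + 1 ≤ Nat.card I) (i : I) :
    ∃ e : Fin (d + 1) → I, Function.Injective e ∧ e 0 = i := by
  classical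
  have := Fintype.ofFinite I
  rw [Nat.card_eq_fintype_card] at hI
  obtain ⟨f⟩ := Function.Embedding.nonempty_of_card_le (α := Fin (d + 1)) (β := I)
    (by rw [Fintype.card_fin]; exact hI)
  refine ⟨fun j => Equiv.swap (f 0) i (f j), ?_, ?_⟩
  · intro p q h
    exact f.injective ((Equiv.swap (f 0) i).injective h)
  · exact Equiv.swap_apply_left _ _

/-- the arrangement of thick hyperplanes of a configuration -/
def arr [Finite I] (hd : 2 ≤ d) (hI : d + 1 ≤ Nat.card I) (hc : 0 < c) (hc1 : c < 1)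
    (C : Conf d I c) : Arrangement d I where
  carrier i := thick c (C.L i)
  isDouble i := by
    obtain ⟨e, he, he0⟩ := exists_inj_zero hI i
    obtain ⟨M, hM, hM0⟩ := exists_std_single (d := d) hc
    refine ⟨hmap hc hc1 hM (C.good e he), ?_⟩
    rw [← hM0, hmap_image, hyp_eq_thick (Or.inl rfl) (one_smul _ _).symm]
    change thick c (C.L (e 0)) = _
    rw [he0]
  standard e := by
    obtain ⟨e', he', hext⟩ := exists_extend hI e
    obtain ⟨M, hM, hMk⟩ := exists_std hd hc
    refine ⟨hmap hc hc1 hM (C.good e' he'), fun k => ?_⟩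
    rw [← hMk, hmap_image, hyp_eq_thick (Or.inl rfl) (one_smul _ _).symm]
    change thick c (C.L (e' k.castSucc)) = _
    rw [hext]

end

end Pool.Agent.Helper80.DPH
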