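import Mathlib

/-!
# Indexed oriented arrangements of double pseudohyperplanes in real projective space

Definitions for the question whether the isomorphism class of an indexed oriented arrangement of
double pseudohyperplanes is determined by its chirotope.
-/

namespace Pool.Agent.Helper80.DPH

/-- The unit sphere of `ℝ^m` with its Euclidean norm, that is, the sphere `S^(m-1)`. -/
abbrev Sph (m : ℕ) : Type := Metric.sphere (0 : EuclideanSpace ℝ (Fin m)) 1

/-- The antipodal equivalence relation on the unit sphere of `ℝ^m`. -/
def antipodal (m : ℕ) : Setoid (Sph m) where
  r x y := y = x ∨ y = -x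
  iseqv :=
    { refl := fun _ => Or.inl rfl
      symm := by
        rintro x y (h | h)
        · exact Or.inl h.symm
        · exact Or.inr (by rw [h, neg_neg])
      trans := by
        rintro x y z (h | h) (h' | h')
        · exact Or.inl (h'.trans h)
        · exact Or.inr (by rw [h', h])
        · exact Or.inr (h'.trans h)
        · exact Or.inl (by rw [h', h, neg_neg]) }

/-- Real projective `d`-space: the unit sphere `S^d` of `ℝ^(d+1)` modulo the antipodal map. -/
def RP (d : ℕ) : Type := Quotient (antipodal (d + 1))

/-- The quotient topology on real projective space. -/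
instance instTopologicalSpaceRP (d : ℕ) : TopologicalSpace (RP d) :=
  instTopologicalSpaceQuotient (s := antipodal (d + 1))

/-- The projection from the sphere `S^d` to real projective `d`-space. -/
def proj {d : ℕ} (x : Sph (d + 1)) : RP d := Quotient.mk (antipodal (d + 1)) x

/-- The image in `ℝP^d` of the set of points `x` of `S^d` with `x_i = a` or `x_i = -a`. -/
def doubleHyperplane (d : ℕ) (i : Fin (d + 1)) (a : ℝ) : Set (RP d) :=
  proj '' {x | x.1 i = a ∨ x.1 i = -a}

/-- A double pseudohyperplane: the image of `{x_1 = ± 1/√2}` under a self-homeomorphism of
`ℝP^d`. -/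
def IsDoublePseudohyperplane {d : ℕ} (X : Set (RP d)) : Prop :=
  ∃ h : RP d ≃ₜ RP d, h '' doubleHyperplane d 0 (1 / √2) = X

/-- An arrangement of double pseudohyperplanes in `ℝP^d` indexed by `I`: each member is a double
pseudohyperplane, and for any `d` distinct members there is a self-homeomorphism of `ℝP^d`
carrying the sets `{x_k = ± 1/√(2d)}`, `k = 1, …, d`, onto these members. -/
structure Arrangement (d : ℕ) (I : Type) where
  /-- the members of the arrangement -/
  carrier : I → Set (RP d)
  isDouble : ∀ i, IsDoublePseudohyperplane (carrier i)
  standard : ∀ e : Fin d ↪ I, ∃ h : RP d ≃ₜ RP d,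
    ∀ k : Fin d, h '' doubleHyperplane d k.castSucc (1 / √(2 * (d : ℝ))) = carrier (e k)

/-- Two homeomorphisms from the sphere `S^(d-1)` onto a subset `X` of `ℝP^d` are equivalent when
they are homotopic as maps to `X`. -/
def orientationSetoid {d : ℕ} (X : Set (RP d)) : Setoid (Sph d ≃ₜ X) where
  r φ ψ := ContinuousMap.Homotopic (φ : C(Sph d, X)) (ψ : C(Sph d, X))
  iseqv :=
    { refl := fun φ => ContinuousMap.Homotopic.refl _
      symm := fun h => ContinuousMap.Homotopic.symm h
      trans := fun h h' => ContinuousMap.Homotopic.trans h h' }

/-- An orientation of a topological `(d-1)`-sphere `X` contained in `ℝP^d`: a homotopy class of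
homeomorphisms `S^(d-1) → X`. There are two of them, told apart by the degree. -/
def Orientation {d : ℕ} (X : Set (RP d)) : Type := Quotient (orientationSetoid X)

/-- The self-homeomorphism `h` of `ℝP^d` maps `X` onto `Y` and carries the orientation `o` of `X`
to the orientation `o'` of `Y`. -/
def MapsOrientation {d : ℕ} {X Y : Set (RP d)} (h : RP d ≃ₜ RP d) (o : Orientation X)
    (o' : Orientation Y) : Prop :=
  ∃ (φ : Sph d ≃ₜ X) (ψ : Sph d ≃ₜ Y),
    Quotient.mk (orientationSetoid X) φ = o ∧ Quotient.mk (orientationSetoid Y) ψ = o' ∧
      ∀ u, h (φ u) = ψ u

/-- An indexed oriented arrangement of double pseudohyperplanes: each member carries an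
orientation. -/
structure OrientedArrangement (d : ℕ) (I : Type) extends Arrangement d I where
  /-- the orientations of the members -/
  orient : ∀ i, Orientation (carrier i)

/-- Isomorphism of indexed oriented arrangements: a self-homeomorphism of `ℝP^d` mapping each
member of the first onto the member of the second with the same index, respecting the
orientations. -/
def OrientedArrangement.Isomorphic {d : ℕ} {I : Type} (A B : OrientedArrangement d I) : Prop :=
  ∃ h : RP d ≃ₜ RP d, ∀ i,
    h '' A.carrier i = B.carrier i ∧ MapsOrientation h (A.orient i) (B.orient i)

/-- The subarrangement of an indexed oriented arrangement formed by the members with index in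
`J`. -/
def OrientedArrangement.sub {d : ℕ} {I : Type} (A : OrientedArrangement d I) (J : Finset I) :
    OrientedArrangement d J where
  carrier j := A.carrier j
  isDouble j := A.isDouble j
  standard e := A.standard (e.trans (Function.Embedding.subtype _))
  orient j := A.orient j

/-- The isomorphism class of an indexed oriented arrangement. -/
def OrientedArrangement.isoClass {d : ℕ} {I : Type} (A : OrientedArrangement d I) :
    Set (OrientedArrangement d I) :=
  {B | A.Isomorphic B}

/-- The chirotope of an indexed oriented arrangement: it assigns to each `(d+1)`-element set `J` of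
indices the isomorphism class of the subarrangement indexed by `J`. -/
def OrientedArrangement.chirotope {d : ℕ} {I : Type} (A : OrientedArrangement d I) :
    (J : {J : Finset I // J.card = d + 1}) → Set (OrientedArrangement d (J : Finset I)) :=
  fun J => (A.sub (J : Finset I)).isoClass

end Pool.Agent.Helper80.DPH
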