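import Pool.Agent.Helper80.DPH.Orient

/-!
# The two configurations, and why they are not isomorphic
-/

namespace Pool.Agent.Helper80.DPH

open Matrix

/-! ### General position -/

section

variable {d : ℕ}

/-- coordinate forms, the sum of the coordinates, and a weighted sum -/
def form (a : Fin (d + 1) → ℝ) : Fin (d + 1) ⊕ Bool → Fin (d + 1) → ℝ
  | Sum.inl k => Pi.single k 1
  | Sum.inr false => fun _ => 1
  | Sum.inr true => a

theorem card_I : Fintype.card (Fin (d + 1) ⊕ Bool) = d + 3 := by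
  simp

theorem three_missing {e : Fin (d + 1) → Fin (d + 1) ⊕ Bool} (he : Function.Injective e)
    {p q r : Fin (d + 1) ⊕ Bool} (hpq : p ≠ q) (hpr : p ≠ r) (hqr : q ≠ r)
    (hp : ∀ j, e j ≠ p) (hq : ∀ j, e j ≠ q) (hr : ∀ j, e j ≠ r) : False := by
  classical
  have h1 : Disjoint (Finset.univ.image e) ({p, q, r} : Finset (Fin (d + 1) ⊕ Bool)) := by
    rw [Finset.disjoint_left]
    intro x hx hx'
    obtain ⟨j, -, rfl⟩ := Finset.mem_image.1 hx
    simp only [Finset.mem_insert, Finset.mem_singleton] at hx'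
    rcases hx' with h | h | h
    · exact hp j h
    · exact hq j h
    · exact hr j h
  have h2 : ({p, q, r} : Finset (Fin (d + 1) ⊕ Bool)).card = 3 := by
    rw [Finset.card_insert_of_notMem, Finset.card_insert_of_notMem, Finset.card_singleton]
    · simpa using hqr
    · simp [hpq, hpr]
  have h3 := Finset.card_union_of_disjoint h1
  rw [Finset.card_image_of_injective _ he, h2, Finset.card_univ, Fintype.card_fin] at h3
  have h4 := Finset.card_le_univ (Finset.univ.image e ∪ ({p, q, r} : Finset _))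
  rw [h3, card_I] at h4
  omega

theorem form_det_ne {a : Fin (d + 1) → ℝ} (ha : Function.Injective a) (ha0 : ∀ k, a k ≠ 0)
    {e : Fin (d + 1) → Fin (d + 1) ⊕ Bool} (he : Function.Injective e) :
    (Matrix.of fun j => form a (e j)).det ≠ 0 := by
  intro hdet
  obtain ⟨v, hv0, hv⟩ := Matrix.exists_mulVec_eq_zero_iff.2 hdet
  have hv' : ∀ j, form a (e j) ⬝ᵥ v = 0 := fun j => congrFun hv j
  obtain ⟨k, hk⟩ := Function.ne_iff.1 hv0
  have hk : v k ≠ 0 := hk
  have inl_ne : ∀ l, v l ≠ 0 → ∀ j, e j ≠ Sum.inl l := by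
    intro l hl j hj
    apply hl
    have := hv' j
    rw [hj] at this
    simpa [form] using this
  by_cases hex : ∃ l, l ≠ k ∧ v l ≠ 0
  · obtain ⟨l, hlk, hl⟩ := hex
    have hmem : ∀ p : Fin (d + 1) ⊕ Bool, p ≠ Sum.inl k → p ≠ Sum.inl l → ∃ j, e j = p := by
      intro p h1 h2
      by_contra hcon
      push Not at hcon
      exact three_missing he (fun h => hlk (Sum.inl_injective h).symm) (Ne.symm h1) (Ne.symm h2)
        (inl_ne k hk) (inl_ne l hl) hcon
    have hz : ∀ m, m ≠ k → m ≠ l → v m = 0 := by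
      intro m h1 h2
      obtain ⟨j, hj⟩ := hmem (Sum.inl m) (fun h => h1 (Sum.inl_injective h))
        (fun h => h2 (Sum.inl_injective h))
      have := hv' j
      rw [hj] at this
      simpa [form] using this
    have hsum : ∀ b : Fin (d + 1) → ℝ, b ⬝ᵥ v = b k * v k + b l * v l := by
      intro b
      rw [dotProduct]
      rw [← Finset.sum_subset (Finset.subset_univ {k, l})]
      · rw [Finset.sum_pair hlk.symm]
      · intro m _ hm
        simp only [Finset.mem_insert, Finset.mem_singleton, not_or] at hm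
        rw [hz m hm.1 hm.2, mul_zero]
    obtain ⟨j1, hj1⟩ := hmem (Sum.inr false) (by simp) (by simp)
    obtain ⟨j2, hj2⟩ := hmem (Sum.inr true) (by simp) (by simp)
    have e1 := hv' j1
    have e2 := hv' j2
    rw [hj1] at e1
    rw [hj2] at e2
    change (fun _ => (1 : ℝ)) ⬝ᵥ v = 0 at e1
    change a ⬝ᵥ v = 0 at e2
    rw [hsum] at e1 e2
    have e3 : v l = -v k := by linarith
    rw [e3] at e2
    have e4 : (a k - a l) * v k = 0 := by linarith
    rcases mul_eq_zero.1 e4 with h | h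
    · exact hlk (ha (sub_eq_zero.1 h)).symm
    · exact hk h
  · push Not at hex
    have hsum : ∀ b : Fin (d + 1) → ℝ, b ⬝ᵥ v = b k * v k := by
      intro b
      rw [dotProduct]
      apply Finset.sum_eq_single k
      · intro m _ hm
        rw [hex m hm, mul_zero]
      · intro h
        exact absurd (Finset.mem_univ k) h
    apply three_missing he (p := Sum.inl k) (q := Sum.inr false) (r := Sum.inr true)
      (by simp) (by simp) (by simp) (inl_ne k hk)
    · intro j hj
      have := hv' j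
      rw [hj] at this
      change (fun _ => (1 : ℝ)) ⬝ᵥ v = 0 at this
      rw [hsum, one_mul] at this
      exact hk this
    · intro j hj
      have := hv' j
      rw [hj] at this
      change a ⬝ᵥ v = 0 at this
      rw [hsum] at this
      rcases mul_eq_zero.1 this with h | h
      · exact ha0 k h
      · exact hk h

/-- A constant that is good for all frames of two families of forms and below a given bound. -/
theorem exists_const {a b : Fin (d + 1) → ℝ} (ha : Function.Injective a) (ha0 : ∀ k, a k ≠ 0)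
    (hb : Function.Injective b) (hb0 : ∀ k, b k ≠ 0) {β : ℝ} (hβ : 0 < β) :
    ∃ c : ℝ, 0 < c ∧ c < β ∧
      (∀ e : Fin (d + 1) → Fin (d + 1) ⊕ Bool, Function.Injective e →
        Good c (Matrix.of fun j => form a (e j))) ∧
      (∀ e : Fin (d + 1) → Fin (d + 1) ⊕ Bool, Function.Injective e →
        Good c (Matrix.of fun j => form b (e j))) := by
  have h1 : ∀ (a : Fin (d + 1) → ℝ), Function.Injective a → (∀ k, a k ≠ 0) →
      ∀ᶠ c in nhdsWithin (0 : ℝ) (Set.Ioi 0),
        ∀ e : Fin (d + 1) → Fin (d + 1) ⊕ Bool, Function.Injective e →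
          Good c (Matrix.of fun j => form a (e j)) := by
    intro a ha ha0
    rw [Filter.eventually_all]
    intro e
    by_cases he : Function.Injective e
    · filter_upwards [eventually_good (form_det_ne ha ha0 he)] with c hc _
      exact hc
    · exact Filter.Eventually.of_forall fun c h => absurd h he
  have h2 := (h1 a ha ha0).and (h1 b hb hb0)
  have h3 : ∀ᶠ c in nhdsWithin (0 : ℝ) (Set.Ioi 0), c ∈ Set.Ioo 0 β := Ioo_mem_nhdsGT hβ
  obtain ⟨c, hc1, hc2⟩ := (h2.and h3).exists
  exact ⟨c, hc2.1, hc2.2, hc1.1, hc1.2⟩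

end

/-! ### The two weight vectors -/

section

variable {n : ℕ}

/-- weights `1, 2, 3, …` -/
def wA : Fin (n + 2) → ℝ := Fin.cons 1 (Fin.cons 2 fun k : Fin n => (k : ℝ) + 3)

/-- weights `2, 1, 3, …` -/
def wB : Fin (n + 2) → ℝ := Fin.cons 2 (Fin.cons 1 fun k : Fin n => (k : ℝ) + 3)

theorem cons_cons_injective {x y : ℝ} {f : Fin n → ℝ} (hxy : x ≠ y) (hf : Function.Injective f)
    (hx : ∀ k, f k ≠ x) (hy : ∀ k, f k ≠ y) :
    Function.Injective (Fin.cons x (Fin.cons y f : Fin (n + 1) → ℝ) : Fin (n + 2) → ℝ) := by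
  rw [Fin.cons_injective_iff, Fin.cons_injective_iff]
  refine ⟨?_, ?_, hf⟩
  · rintro ⟨k, hk⟩
    refine Fin.cases (fun hk => ?_) (fun i hk => ?_) k hk
    · rw [Fin.cons_zero] at hk
      exact hxy hk.symm
    · rw [Fin.cons_succ] at hk
      exact hx i hk
  · rintro ⟨k, hk⟩
    exact hy k hk

theorem natCast_add_three_injective : Function.Injective fun k : Fin n => ((k : ℕ) : ℝ) + 3 := by
  intro k l h
  have h1 : ((k : ℕ) : ℝ) = (l : ℕ) := by
    have : ((k : ℕ) : ℝ) + 3 = (l : ℕ) + 3 := h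
    linarith
  exact Fin.ext (by exact_mod_cast h1)

theorem wA_injective : Function.Injective (wA : Fin (n + 2) → ℝ) := by
  apply cons_cons_injective (by norm_num) natCast_add_three_injective
  · intro k h
    have := Nat.cast_nonneg (α := ℝ) (k : ℕ)
    linarith
  · intro k h
    have := Nat.cast_nonneg (α := ℝ) (k : ℕ)
    linarith

theorem wB_injective : Function.Injective (wB : Fin (n + 2) → ℝ) := by
  apply cons_cons_injective (by norm_num) natCast_add_three_injective
  · intro k h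
    have := Nat.cast_nonneg (α := ℝ) (k : ℕ)
    linarith
  · intro k h
    have := Nat.cast_nonneg (α := ℝ) (k : ℕ)
    linarith

theorem wA_ne_zero (k : Fin (n + 2)) : (wA k : ℝ) ≠ 0 := by
  refine Fin.cases ?_ (fun k => Fin.cases ?_ (fun k => ?_) k) k
  · simp [wA]
  · simp [wA]
  · simp only [wA, Fin.cons_succ]
    positivity

theorem wB_ne_zero (k : Fin (n + 2)) : (wB k : ℝ) ≠ 0 := by
  refine Fin.cases ?_ (fun k => Fin.cases ?_ (fun k => ?_) k) k
  · simp [wB]
  · simp [wB]
  · simp only [wB, Fin.cons_succ]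
    positivity

theorem sum_two {f : Fin (n + 2) → ℝ} :
    ∑ k, f k = f 0 + (f 1 + ∑ k : Fin n, f k.succ.succ) := by
  rw [Fin.sum_univ_succ, Fin.sum_univ_succ]
  rfl

/-- the sum of the weights from the third on -/
noncomputable def QQ (n : ℕ) : ℝ := ∑ k : Fin n, ((k : ℝ) + 3)

theorem le_QQ (n : ℕ) : (n : ℝ) ≤ QQ n := by
  have : ∑ _k : Fin n, (1 : ℝ) ≤ QQ n := by
    apply Finset.sum_le_sum
    intro k _
    have := Nat.cast_nonneg (α := ℝ) (k : ℕ)
    linarith
  simpa using this

theorem QQ_nonneg (n : ℕ) : 0 ≤ QQ n := le_trans (Nat.cast_nonneg n) (le_QQ n)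

end

/-! ### The obstruction -/

section

variable {n : ℕ} {c : ℝ}

theorem mem_thick_iff {d : ℕ} {c : ℝ} {ℓ : Fin (d + 1) → ℝ} {x : Sph (d + 1)} :
    (proj x : RP d) ∈ thick c ℓ ↔ |ℓ ⬝ᵥ x.co| = c := by
  constructor
  · rintro ⟨y, hy, hxy⟩
    have hy : |ℓ ⬝ᵥ y.co| = c := hy
    rcases proj_eq_iff.1 hxy with h | h
    · rw [h]; exact hy
    · rw [h]
      have : (-y).co = -y.co := rfl
      rw [this, dotProduct_neg, abs_neg]
      exact hy
  · intro h
    exact ⟨x, h, rfl⟩

theorem Sph.sum_sq {m : ℕ} (x : Sph m) : ∑ k, (x.co k) ^ 2 = 1 := by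
  rw [← vec_norm_sq]
  have : vec x.co = x.1 := rfl
  rw [this, x.norm_eq, one_pow]

/-- In the first arrangement, there is no connected subset of the intersection of the thick
hyperplanes number `2, 3, …` avoiding the thick hyperplane number `1` and that of the sum form,
and meeting both the thick hyperplane number `0` and that of the weighted form. -/
theorem obstruction (hc : 0 < c) (hcn : c * (QQ n + n + 10) < 1 / 10) (S : Set (RP (n + 1)))
    (hS : IsPreconnected S)
    (h2 : ∀ k : Fin n, S ⊆ thick c (form wA (Sum.inl k.succ.succ)))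
    (h1 : ∀ p ∈ S, p ∉ thick c (form wA (Sum.inl 1)))
    (hs : ∀ p ∈ S, p ∉ thick c (form wA (Sum.inr false)))
    {p0 p1 : RP (n + 1)} (hp0 : p0 ∈ S) (hp1 : p1 ∈ S)
    (h0 : p0 ∈ thick c (form wA (Sum.inl 0))) (hw : p1 ∈ thick c (form wA (Sum.inr true))) :
    False := by
  have hQ := le_QQ n
  have hn : (0 : ℝ) ≤ n := Nat.cast_nonneg n
  -- the continuous functions
  set V1 : RP (n + 1) → ℝ := fun p => veronese p 1 1 with hV1
  set V2 : RP (n + 1) → ℝ := fun p => ∑ i, ∑ j, veronese p i j with hV2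
  set V3 : RP (n + 1) → ℝ := fun p => ∑ j, veronese p 1 j with hV3
  have hv : ∀ i j, Continuous fun p : RP (n + 1) => veronese p i j := fun i j =>
    (continuous_apply j).comp ((continuous_apply i).comp continuous_veronese)
  have hc1 : Continuous V1 := hv 1 1
  have hc2 : Continuous V2 := continuous_finsetSum _ fun i _ =>
    continuous_finsetSum _ fun j _ => hv i j
  have hc3 : Continuous V3 := continuous_finsetSum _ fun j _ => hv 1 j
  have eV1 : ∀ x : Sph (n + 2), V1 (proj x) = x.co 1 * x.co 1 := fun x => rfl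
  have eV2 : ∀ x : Sph (n + 2), V2 (proj x) = (∑ i, x.co i) * ∑ j, x.co j := by
    intro x
    rw [Finset.sum_mul_sum]
    rfl
  have eV3 : ∀ x : Sph (n + 2), V3 (proj x) = x.co 1 * ∑ j, x.co j := by
    intro x
    rw [Finset.mul_sum]
    rfl
  -- memberships
  have m1 : ∀ x : Sph (n + 2), (proj x : RP (n + 1)) ∈ thick c (form wA (Sum.inl 1)) ↔
      |x.co 1| = c := by
    intro x; rw [mem_thick_iff]; simp [form]
  have m0 : ∀ x : Sph (n + 2), (proj x : RP (n + 1)) ∈ thick c (form wA (Sum.inl 0)) ↔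
      |x.co 0| = c := by
    intro x; rw [mem_thick_iff]; simp [form]
  have m2 : ∀ (x : Sph (n + 2)) (k : Fin n),
      (proj x : RP (n + 1)) ∈ thick c (form wA (Sum.inl k.succ.succ)) ↔
      |x.co k.succ.succ| = c := by
    intro x k; rw [mem_thick_iff]; simp [form]
  have ms : ∀ x : Sph (n + 2), (proj x : RP (n + 1)) ∈ thick c (form wA (Sum.inr false)) ↔
      |∑ j, x.co j| = c := by
    intro x; rw [mem_thick_iff]; simp [form, dotProduct]
  have mw : ∀ x : Sph (n + 2), (proj x : RP (n + 1)) ∈ thick c (form wA (Sum.inr true)) ↔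
      |∑ j, wA j * x.co j| = c := by
    intro x; rw [mem_thick_iff]; simp [form, dotProduct]
  -- the point `p0`
  obtain ⟨x, rfl⟩ := proj_surjective p0
  obtain ⟨y, rfl⟩ := proj_surjective p1
  have hx2 : ∀ k : Fin n, |x.co k.succ.succ| = c := fun k => (m2 x k).1 (h2 k hp0)
  have hy2 : ∀ k : Fin n, |y.co k.succ.succ| = c := fun k => (m2 y k).1 (h2 k hp1)
  have hx0 : |x.co 0| = c := (m0 x).1 h0
  have hyw : |∑ j, wA j * y.co j| = c := (mw y).1 hw
  have bound : ∀ z : Sph (n + 2), (∀ k : Fin n, |z.co k.succ.succ| = c) →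
      |∑ k : Fin n, z.co k.succ.succ| ≤ n * c ∧
      |∑ k : Fin n, ((k : ℝ) + 3) * z.co k.succ.succ| ≤ QQ n * c ∧
      ∑ k : Fin n, (z.co k.succ.succ) ^ 2 = n * c ^ 2 := by
    intro z hz
    refine ⟨?_, ?_, ?_⟩
    · refine (Finset.abs_sum_le_sum_abs _ _).trans ?_
      simp [hz]
    · refine (Finset.abs_sum_le_sum_abs _ _).trans ?_
      rw [QQ, Finset.sum_mul]
      apply Finset.sum_le_sum
      intro k _
      rw [abs_mul, hz k, abs_of_nonneg (by positivity)]
    · have : ∀ k : Fin n, (z.co k.succ.succ) ^ 2 = c ^ 2 := by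
        intro k
        rw [← sq_abs, hz k]
      simp [this]
  obtain ⟨bx1, -, bx3⟩ := bound x hx2
  obtain ⟨by1, by2, by3⟩ := bound y hy2
  have sx := x.sum_sq
  have sy := y.sum_sq
  rw [sum_two] at sx sy
  rw [bx3] at sx
  rw [by3] at sy
  have hx0sq : x.co 0 ^ 2 = c ^ 2 := by rw [← sq_abs, hx0]
  have hcQ0 : 0 ≤ c * QQ n := mul_nonneg hc.le (QQ_nonneg n)
  have hcn0 : 0 ≤ c * n := mul_nonneg hc.le hn
  have hexp : c * (QQ n + n + 10) = c * QQ n + c * n + 10 * c := by ring
  have hcn1 : c * n < 1 / 10 := by linarith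
  have hcQ : c * QQ n < 1 / 10 := by linarith
  have hc10 : c < 1 / 100 := by linarith
  have hcc : (n : ℝ) * c ^ 2 < 1 / 100 := by
    have h3 : (n : ℝ) * c ^ 2 = (c * n) * c := by ring
    have h4 : (c * n) * c ≤ (1 / 10) * c := mul_le_mul_of_nonneg_right hcn1.le hc.le
    linarith
  -- lower bound for `x 1`
  have hx1 : 1 / 2 < |x.co 1| := by
    have h5 : c ^ 2 ≤ 1 / 100 := by
      have := pow_le_pow_left₀ hc.le hc10.le 2
      norm_num at this ⊢
      linarith
    have h3 : 3 / 4 < x.co 1 ^ 2 := by linarith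
    by_contra hcon
    have h4 := pow_le_pow_left₀ (abs_nonneg (x.co 1)) (not_lt.1 hcon) 2
    rw [sq_abs] at h4
    norm_num at h4
    linarith
  have hxsum : |∑ j, x.co j - x.co 1| ≤ (n + 1) * c := by
    rw [sum_two]
    have : x.co 0 + (x.co 1 + ∑ k : Fin n, x.co k.succ.succ) - x.co 1 =
        x.co 0 + ∑ k : Fin n, x.co k.succ.succ := by ring
    rw [this]
    refine (abs_add_le _ _).trans ?_
    rw [hx0]
    linarith
  have hn1 : (n + 1) * c < 1 / 10 := by
    have h3 : (n + 1) * c = c * n + c := by ring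
    linarith
  have hxs : 2 * c < |∑ j, x.co j| := by
    have h3 := abs_sub_abs_le_abs_sub (x.co 1) (∑ j, x.co j)
    rw [abs_sub_comm] at h3
    linarith
  -- propagation
  have prop1 : ∀ p ∈ S, c ^ 2 < V1 p := by
    intro p hp
    by_contra hcon
    have h3 := hS.intermediate_value hp hp0 hc1.continuousOn
    have h4 : c ^ 2 ∈ Set.Icc (V1 p) (V1 (proj x)) := by
      refine ⟨not_lt.1 hcon, ?_⟩
      have h5 : c ≤ |x.co 1| := by linarith
      rw [eV1, ← sq, ← sq_abs (x.co 1)]
      exact pow_le_pow_left₀ hc.le h5 2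
    obtain ⟨q, hq, hq'⟩ := h3 h4
    obtain ⟨z, rfl⟩ := proj_surjective q
    apply h1 _ hq
    rw [m1]
    rw [eV1, ← sq, ← sq_abs (z.co 1)] at hq'
    exact (pow_left_inj₀ (abs_nonneg _) hc.le (by norm_num)).1 hq'
  have prop2 : ∀ p ∈ S, c ^ 2 < V2 p := by
    intro p hp
    by_contra hcon
    have h3 := hS.intermediate_value hp hp0 hc2.continuousOn
    have h4 : c ^ 2 ∈ Set.Icc (V2 p) (V2 (proj x)) := by
      refine ⟨not_lt.1 hcon, ?_⟩
      have h5 : c ≤ |∑ j, x.co j| := by linarith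
      rw [eV2, ← sq, ← sq_abs (∑ j, x.co j)]
      exact pow_le_pow_left₀ hc.le h5 2
    obtain ⟨q, hq, hq'⟩ := h3 h4
    obtain ⟨z, rfl⟩ := proj_surjective q
    apply hs _ hq
    rw [ms]
    rw [eV2, ← sq, ← sq_abs (∑ j, z.co j)] at hq'
    exact (pow_left_inj₀ (abs_nonneg _) hc.le (by norm_num)).1 hq'
  -- the signs
  have sgn0 : 0 < V3 (proj x) := by
    rw [eV3]
    have h3 : x.co 1 * ∑ j, x.co j = x.co 1 ^ 2 + x.co 1 * (∑ j, x.co j - x.co 1) := by ring
    have h4 : |x.co 1 * (∑ j, x.co j - x.co 1)| ≤ |x.co 1| * ((n + 1) * c) := by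
      rw [abs_mul]
      exact mul_le_mul_of_nonneg_left hxsum (abs_nonneg _)
    have h5 := (abs_le.1 h4).1
    have h6 : 0 < |x.co 1| * (|x.co 1| - (n + 1) * c) :=
      mul_pos (by linarith) (by linarith)
    rw [h3, ← sq_abs]
    linarith
  have sgn1 : V3 (proj y) < 0 := by
    rw [eV3]
    rw [sum_two] at hyw
    simp only [wA, Fin.cons_zero, Fin.cons_succ] at hyw
    have w1 : (Fin.cons (1 : ℝ) (Fin.cons (2 : ℝ) fun k : Fin n => (k : ℝ) + 3 : Fin (n + 1) → ℝ) :
        Fin (n + 2) → ℝ) 1 = 2 := rfl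
    rw [w1, one_mul] at hyw
    set A : ℝ := ∑ k : Fin n, y.co k.succ.succ with hA
    set B : ℝ := ∑ k : Fin n, ((k : ℝ) + 3) * y.co k.succ.succ with hB
    have h3 : |y.co 0 + 2 * y.co 1| ≤ (QQ n + 1) * c := by
      have h4 : y.co 0 + 2 * y.co 1 = (y.co 0 + (2 * y.co 1 + B)) - B := by ring
      rw [h4]
      refine (abs_sub _ _).trans ?_
      rw [hyw]
      linarith
    set η : ℝ := y.co 0 + 2 * y.co 1 with hη
    have h5 : y.co 0 = η - 2 * y.co 1 := by rw [hη]; ring
    have hηs : |η| ≤ 1 / 10 := by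
      have h16 : (QQ n + 1) * c = c * (QQ n + n + 10) - 9 * c - n * c := by ring
      have h17 : 0 ≤ n * c := mul_nonneg hn hc.le
      linarith
    have hy1 : 1 / 10 < |y.co 1| := by
      by_contra hcon
      have h6 := not_lt.1 hcon
      have h7 : y.co 1 ^ 2 ≤ 1 / 100 := by
        rw [← sq_abs]
        have := pow_le_pow_left₀ (abs_nonneg (y.co 1)) h6 2
        norm_num at this ⊢
        exact this
      have h8 : |y.co 0| ≤ 3 / 10 := by
        rw [h5]
        refine (abs_sub _ _).trans ?_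
        rw [abs_mul, abs_two]
        linarith
      have h9 : y.co 0 ^ 2 ≤ 9 / 100 := by
        rw [← sq_abs]
        have := pow_le_pow_left₀ (abs_nonneg (y.co 0)) h8 2
        norm_num at this ⊢
        exact this
      linarith
    have h9 : ∑ j, y.co j = -y.co 1 + (η + A) := by
      rw [sum_two, h5]; ring
    have h10 : |η + A| ≤ (QQ n + 1 + n) * c := by
      refine (abs_add_le _ _).trans ?_
      linarith
    have h11 : y.co 1 * ∑ j, y.co j = -(y.co 1 ^ 2) + y.co 1 * (η + A) := by rw [h9]; ring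
    have h12 : |y.co 1 * (η + A)| ≤ |y.co 1| * ((QQ n + 1 + n) * c) := by
      rw [abs_mul]
      exact mul_le_mul_of_nonneg_left h10 (abs_nonneg _)
    have h13 := (abs_le.1 h12).2
    have h14 : (QQ n + 1 + n) * c < 1 / 10 := by
      have h16 : (QQ n + 1 + n) * c = c * (QQ n + n + 10) - 9 * c := by ring
      linarith
    have h15 : 0 < |y.co 1| * (|y.co 1| - (QQ n + 1 + n) * c) :=
      mul_pos (by linarith) (by linarith)
    rw [h11, ← sq_abs]
    linarith
  have h3 := hS.intermediate_value hp1 hp0 hc3.continuousOn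
  obtain ⟨q, hq, hq'⟩ := h3 (show (0 : ℝ) ∈ Set.Icc (V3 (proj y)) (V3 (proj x)) from
    ⟨sgn1.le, sgn0.le⟩)
  obtain ⟨z, rfl⟩ := proj_surjective q
  have p1 := prop1 _ hq
  have p2 := prop2 _ hq
  rw [eV3] at hq'
  rw [eV1] at p1
  rw [eV2] at p2
  have hc2' : 0 < c ^ 2 := by positivity
  rcases mul_eq_zero.1 hq' with h | h
  · rw [h] at p1; linarith
  · rw [h] at p2; linarith

end

end Pool.Agent.Helper80.DPH
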