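import Pool.Agent.Helper80.DPH.Proj

/-!
# Homotopies of normalised maps, and linear automorphisms with positive determinant
-/

namespace Pool.Agent.Helper80.DPH

open Matrix

section

variable {X : Type*} [TopologicalSpace X] {n : ℕ}

/-- normalisation of a nowhere zero map -/
noncomputable def nrmC (F : C(X, Fin n → ℝ)) (hF : ∀ x, F x ≠ 0) : C(X, Sph n) where
  toFun x := nrm (F x) (hF x)
  continuous_toFun := by
    apply Continuous.subtype_mk
    have h : Continuous fun x => vec (F x) := (PiLp.continuous_toLp 2 _).comp F.continuous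
    exact (h.norm.inv₀ fun x => (vec_norm_pos (hF x)).ne').smul h

theorem nrmC_apply (F : C(X, Fin n → ℝ)) (hF : ∀ x, F x ≠ 0) (x : X) :
    nrmC F hF x = nrm (F x) (hF x) := rfl

theorem nrmC_homotopic (F G : C(X, Fin n → ℝ)) (hF : ∀ x, F x ≠ 0) (hG : ∀ x, G x ≠ 0)
    (H : unitInterval × X → Fin n → ℝ) (hH : Continuous H) (h0 : ∀ x, H (0, x) = F x)
    (h1 : ∀ x, H (1, x) = G x) (hne : ∀ t x, H (t, x) ≠ 0) :
    ContinuousMap.Homotopic (nrmC F hF) (nrmC G hG) := by
  refine ⟨⟨nrmC ⟨H, hH⟩ (fun p => hne p.1 p.2), ?_, ?_⟩⟩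
  · intro x
    apply Subtype.ext
    change ‖vec (H (0, x))‖⁻¹ • vec (H (0, x)) = ‖vec (F x)‖⁻¹ • vec (F x)
    rw [h0]
  · intro x
    apply Subtype.ext
    change ‖vec (H (1, x))‖⁻¹ • vec (H (1, x)) = ‖vec (G x)‖⁻¹ • vec (G x)
    rw [h1]

/-- the straight line homotopy -/
theorem nrmC_homotopic_line (F G : C(X, Fin n → ℝ)) (hF : ∀ x, F x ≠ 0) (hG : ∀ x, G x ≠ 0)
    (hne : ∀ t : ℝ, 0 ≤ t → t ≤ 1 → ∀ x, (1 - t) • F x + t • G x ≠ 0) :
    ContinuousMap.Homotopic (nrmC F hF) (nrmC G hG) := by
  apply nrmC_homotopic F G hF hG (fun p => (1 - (p.1 : ℝ)) • F p.2 + (p.1 : ℝ) • G p.2)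
  · fun_prop
  · intro x; simp
  · intro x; simp
  · intro t x
    exact hne t t.2.1 t.2.2 x

theorem nrmC_homotopic_sign (F G : C(X, Fin n → ℝ)) (hF : ∀ x, F x ≠ 0) (hG : ∀ x, G x ≠ 0)
    (h : ∀ x k, ∃ μ : ℝ, 0 < μ ∧ G x k = μ * F x k) :
    ContinuousMap.Homotopic (nrmC F hF) (nrmC G hG) := by
  apply nrmC_homotopic_line
  intro t ht0 ht1 x h0
  obtain ⟨k, hk⟩ := Function.ne_iff.1 (hF x)
  have hk : F x k ≠ 0 := hk
  obtain ⟨μ, hμ, hG'⟩ := h x k
  have h1 := congrFun h0 k
  simp only [Pi.add_apply, Pi.smul_apply, smul_eq_mul, Pi.zero_apply, hG'] at h1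
  have h2 : F x k * ((1 - t) + t * μ) = 0 := by rw [← h1]; ring
  rcases mul_eq_zero.1 h2 with h3 | h3
  · exact hk h3
  · rcases ht0.eq_or_lt with h4 | h4
    · rw [← h4] at h3; norm_num at h3
    · have := mul_pos h4 hμ
      linarith

end

/-! ### Linear automorphisms -/

section

variable {n : ℕ}

theorem mulVec_ne_zero' {A : Matrix (Fin n) (Fin n) ℝ} (hA : A.det ≠ 0) {x : Fin n → ℝ}
    (hx : x ≠ 0) : A *ᵥ x ≠ 0 := by
  intro h
  apply hx
  have hu : IsUnit A.det := isUnit_iff_ne_zero.2 hA
  have := congrArg (A⁻¹ *ᵥ ·) h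
  simpa [mulVec_mulVec, nonsing_inv_mul _ hu] using this

/-- the map of the sphere induced by an invertible matrix, precomposed with nothing -/
noncomputable def linF (A : Matrix (Fin n) (Fin n) ℝ) : C(Sph n, Fin n → ℝ) where
  toFun u := A *ᵥ u.co
  continuous_toFun := Continuous.matrix_mulVec continuous_const continuous_co

theorem linF_ne {A : Matrix (Fin n) (Fin n) ℝ} (hA : A.det ≠ 0) (u : Sph n) : linF A u ≠ 0 :=
  mulVec_ne_zero' hA u.co_ne_zero

/-- the self-map of the sphere induced by an invertible matrix -/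
noncomputable def linmap (A : Matrix (Fin n) (Fin n) ℝ) (hA : A.det ≠ 0) : C(Sph n, Sph n) :=
  nrmC (linF A) (linF_ne hA)

theorem linmap_one (h : (1 : Matrix (Fin n) (Fin n) ℝ).det ≠ 0) :
    linmap 1 h = ContinuousMap.id (Sph n) := by
  ext1 u
  rw [linmap, nrmC_apply, ContinuousMap.id_apply]
  have : (linF (1 : Matrix (Fin n) (Fin n) ℝ)) u = u.co := one_mulVec _
  apply Subtype.ext
  change ‖vec (linF (1 : Matrix (Fin n) (Fin n) ℝ) u)‖⁻¹ • vec (linF (1 : Matrix (Fin n) (Fin n) ℝ) u)
    = u.1
  rw [this]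
  have h2 : vec u.co = u.1 := rfl
  rw [h2, u.norm_eq, inv_one, one_smul]

/-- matrices of positive determinant -/
def PosDet (n : ℕ) : Set (Matrix (Fin n) (Fin n) ℝ) := {A | 0 < A.det}

theorem joinedIn_mul {A B : Matrix (Fin n) (Fin n) ℝ} (hA : JoinedIn (PosDet n) 1 A)
    (hB : JoinedIn (PosDet n) 1 B) : JoinedIn (PosDet n) 1 (A * B) := by
  obtain ⟨γ, hγ⟩ := hA
  obtain ⟨δ, hδ⟩ := hB
  refine ⟨⟨⟨fun t => γ t * δ t, ?_⟩, ?_, ?_⟩, ?_⟩
  · exact γ.continuous.matrix_mul δ.continuous
  · simp
  · simp
  · intro t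
    change 0 < (γ t * δ t).det
    rw [det_mul]
    exact mul_pos (hγ t) (hδ t)

theorem joinedIn_transvection {i j : Fin n} (hij : i ≠ j) (a : ℝ) :
    JoinedIn (PosDet n) 1 (transvection i j a) := by
  refine ⟨⟨⟨fun t => transvection i j ((t : ℝ) * a), ?_⟩, ?_, ?_⟩, ?_⟩
  · have h1 : (fun t : unitInterval => transvection i j ((t : ℝ) * a)) =
        fun t : unitInterval => (1 : Matrix (Fin n) (Fin n) ℝ) + ((t : ℝ) * a) • single i j 1 := by
      funext t
      rw [transvection]
      congr 1
      ext p q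
      simp [single]
    rw [h1]
    fun_prop
  · simp
  · simp
  · intro t
    change 0 < (transvection i j ((t : ℝ) * a)).det
    rw [det_transvection_of_ne _ _ hij]
    exact one_pos

theorem joinedIn_diagonal_pos {D : Fin n → ℝ} (hD : ∀ i, 0 < D i) :
    JoinedIn (PosDet n) 1 (diagonal D) := by
  refine ⟨⟨⟨fun t => diagonal (fun i => (1 - (t : ℝ)) + (t : ℝ) * D i), ?_⟩, ?_, ?_⟩, ?_⟩
  · apply Continuous.matrix_diagonal
    fun_prop
  · simp
  · simp
  · intro t
    change 0 < (diagonal (fun i => (1 - (t : ℝ)) + (t : ℝ) * D i)).det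
    rw [det_diagonal]
    apply Finset.prod_pos
    intro i _
    rcases t.2.1.eq_or_lt with h | h
    · rw [← h]; norm_num
    · have := mul_pos h (hD i)
      have := t.2.2
      linarith

/-- the diagonal matrix with entries `-1` at `i` and `j` and `1` elsewhere is a product of
transvections -/
theorem joinedIn_neg_neg {i j : Fin n} (hij : i ≠ j) :
    JoinedIn (PosDet n) 1 (diagonal fun k => if k = i ∨ k = j then (-1 : ℝ) else 1) := by
  have hw : JoinedIn (PosDet n) 1
      (transvection i j (1 : ℝ) * transvection j i (-1) * transvection i j 1) :=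
    joinedIn_mul (joinedIn_mul (joinedIn_transvection hij 1)
      (joinedIn_transvection hij.symm (-1))) (joinedIn_transvection hij 1)
  have h2 := joinedIn_mul hw hw
  have key : (transvection i j (1 : ℝ) * transvection j i (-1) * transvection i j 1) *
      (transvection i j (1 : ℝ) * transvection j i (-1) * transvection i j 1) =
      diagonal fun k => if k = i ∨ k = j then (-1 : ℝ) else 1 := by
    set E : Matrix (Fin n) (Fin n) ℝ := single i j 1 with hE
    set F : Matrix (Fin n) (Fin n) ℝ := single j i 1 with hF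
    have hF' : single j i (-1 : ℝ) = -F := by
      rw [hF]; ext p q; simp [single]; split_ifs <;> simp
    have e1 : E * E = 0 := by rw [hE]; simp [hij.symm]
    have e2 : F * F = 0 := by rw [hF]; simp [hij]
    have e3 : E * F = single i i 1 := by rw [hE, hF]; simp
    have e4 : F * E = single j j 1 := by rw [hE, hF]; simp
    have e5 : E * F * E = E := by rw [e3, hE]; simp
    have e6 : F * E * F = F := by rw [e4, hF]; simp
    have hw1 : transvection i j (1 : ℝ) * transvection j i (-1) * transvection i j 1 =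
        1 + E - F - E * F - F * E := by
      rw [transvection, transvection, hF', ← hE]
      have : (1 + E) * (1 + -F) * (1 + E) =
        1 + E + E - F - E * F - F * E - E * F * E + E * E := by noncomm_ring
      rw [this, e5, e1]
      abel
    rw [hw1]
    set P : Matrix (Fin n) (Fin n) ℝ := E * F + F * E with hP
    have p1 : P * E = E := by rw [hP, add_mul, e5, mul_assoc, e1, mul_zero, add_zero]
    have p2 : E * P = E := by
      rw [hP, mul_add, ← mul_assoc, ← mul_assoc, e1, zero_mul, zero_add, e5]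
    have p3 : P * F = F := by rw [hP, add_mul, e6, mul_assoc, e2, mul_zero, zero_add]
    have p4 : F * P = F := by
      rw [hP, mul_add, ← mul_assoc, ← mul_assoc, e2, zero_mul, add_zero, e6]
    have p5 : P * P = P := by
      rw [hP, ← hP, add_mul, mul_assoc, p4, mul_assoc, p2]
    have hw2 : (1 + E - F - E * F - F * E : Matrix (Fin n) (Fin n) ℝ) = 1 - P + E - F := by
      rw [hP]; abel
    rw [hw2]
    have : (1 - P + E - F) * (1 - P + E - F) = 1 - P - P + P * P + (E - P * E) + (E - E * P)
        - (F - P * F) - (F - F * P) + E * E - (E * F + F * E) + F * F := by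
      noncomm_ring
    rw [this, p1, p2, p3, p4, p5, e1, e2, ← hP]
    have : 1 - P - P + P + (E - E) + (E - E) - (F - F) - (F - F) + 0 - P + 0 = 1 - P - P := by
      abel
    rw [this, hP, e3, e4]
    ext p q
    by_cases hpq : p = q
    · subst hpq
      by_cases h1 : p = i
      · subst h1
        simp [single, hij, hij.symm]
      · by_cases h2 : p = j
        · subst h2
          simp [single, hij, h1]
        · simp [single, h1, h2, Ne.symm h1, Ne.symm h2]
    · rw [diagonal_apply_ne _ hpq]
      simp only [Matrix.sub_apply, Matrix.add_apply, Matrix.one_apply_ne hpq, single]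
      have h1 : ¬ (i = p ∧ i = q) := fun h => hpq (h.1.symm.trans h.2)
      have h2 : ¬ (j = p ∧ j = q) := fun h => hpq (h.1.symm.trans h.2)
      simp [h1, h2]
  rw [key] at h2
  exact h2

theorem joinedIn_diagonal (k : ℕ) : ∀ (D : Fin n → ℝ),
    (Finset.univ.filter fun i => D i < 0).card = k → 0 < ∏ i, D i →
    JoinedIn (PosDet n) 1 (diagonal D) := by
  induction k using Nat.strong_induction_on with
  | _ k ih =>
    intro D hk hD
    have hne : ∀ i, D i ≠ 0 := fun i hi => by
      rw [Finset.prod_eq_zero (Finset.mem_univ i) hi] at hD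
      exact lt_irrefl _ hD
    by_cases h0 : ∀ i, 0 < D i
    · exact joinedIn_diagonal_pos h0
    push Not at h0
    obtain ⟨i, hi⟩ := h0
    have hi : D i < 0 := lt_of_le_of_ne hi (hne i)
    have hex : ∃ j, j ≠ i ∧ D j < 0 := by
      by_contra hcon
      push Not at hcon
      have h1 : 0 < ∏ j ∈ Finset.univ.erase i, D j :=
        Finset.prod_pos fun j hj =>
          lt_of_le_of_ne (hcon j (Finset.ne_of_mem_erase hj)) (hne j).symm
      rw [← Finset.mul_prod_erase _ _ (Finset.mem_univ i)] at hD
      nlinarith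
    obtain ⟨j, hji, hj⟩ := hex
    set D' : Fin n → ℝ := fun l => (if l = i ∨ l = j then (-1 : ℝ) else 1) * D l with hD'
    have hfac : diagonal D =
        diagonal (fun l => if l = i ∨ l = j then (-1 : ℝ) else 1) * diagonal D' := by
      rw [diagonal_mul_diagonal]
      congr 1
      funext l
      rw [hD']
      by_cases h : l = i ∨ l = j
      · simp [h]
      · simp [h]
    rw [hfac]
    apply joinedIn_mul (joinedIn_neg_neg hji.symm)
    have hsub : (Finset.univ.filter fun l => D' l < 0) ⊂ (Finset.univ.filter fun l => D l < 0) := by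
      rw [Finset.ssubset_iff_of_subset]
      · refine ⟨i, by simpa using hi, ?_⟩
        simp only [Finset.mem_filter, Finset.mem_univ, true_and, hD', true_or, if_true]
        linarith
      · intro l hl
        simp only [Finset.mem_filter, Finset.mem_univ, true_and, hD'] at hl ⊢
        by_cases h : l = i ∨ l = j
        · rcases h with h | h
          · rw [h]; exact hi
          · rw [h]; exact hj
        · rw [if_neg h, one_mul] at hl
          exact hl
    refine ih _ ?_ D' rfl ?_
    · rw [← hk]
      exact Finset.card_lt_card hsub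
    · have h1 : (∏ l, D' l) = (∏ l, (if l = i ∨ l = j then (-1 : ℝ) else 1)) * ∏ l, D l := by
        rw [hD', Finset.prod_mul_distrib]
      have h2 : (∏ l, (if l = i ∨ l = j then (-1 : ℝ) else 1)) = 1 := by
        have h3 : (Finset.univ.filter fun l => l = i ∨ l = j) = {i, j} := by
          ext l; simp
        rw [Finset.prod_ite, h3]
        simp [Finset.card_pair hji.symm]
      rw [h1, h2, one_mul]
      exact hD

theorem joinedIn_posDet (M : Matrix (Fin n) (Fin n) ℝ) (hM : 0 < M.det) :
    JoinedIn (PosDet n) 1 M := by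
  apply Matrix.diagonal_transvection_induction (fun A => JoinedIn (PosDet n) 1 A) M
  · intro D hD
    rw [det_diagonal] at hD
    exact joinedIn_diagonal _ D rfl (by rw [hD]; exact hM)
  · intro t
    exact joinedIn_transvection t.hij t.c
  · intro A B hA hB
    exact joinedIn_mul hA hB

/-- a linear automorphism of positive determinant induces a self-map of the sphere homotopic to
the identity -/
theorem linmap_homotopic_id (A : Matrix (Fin n) (Fin n) ℝ) (hA : 0 < A.det) :
    ContinuousMap.Homotopic (linmap A hA.ne') (ContinuousMap.id (Sph n)) := by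
  obtain ⟨γ, hγ⟩ := joinedIn_posDet A hA
  have h1 : (1 : Matrix (Fin n) (Fin n) ℝ).det ≠ 0 := by rw [det_one]; exact one_ne_zero
  rw [← linmap_one h1]
  apply ContinuousMap.Homotopic.symm
  apply nrmC_homotopic _ _ _ _ (fun p : unitInterval × Sph n => γ p.1 *ᵥ p.2.co)
  · exact Continuous.matrix_mulVec (γ.continuous.comp continuous_fst)
      (continuous_co.comp continuous_snd)
  · intro u
    simp [linF]
  · intro u
    simp [linF]
  · intro t u
    exact mulVec_ne_zero' (ne_of_gt (hγ t)) u.co_ne_zero

end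

end Pool.Agent.Helper80.DPH
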