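import Pool.Agent.Helper80.DPH.Forms

/-!
# The two arrangements are not isomorphic; the main theorem
-/

namespace Pool.Agent.Helper80.DPH

open Matrix

section

variable {n : ℕ} {c : ℝ}

/-- the path of vectors -/
noncomputable def pv (n : ℕ) (c t : ℝ) : Fin (n + 2) → ℝ :=
  Fin.cons t (Fin.cons (-√(1 - n * c ^ 2 - t ^ 2)) fun _ : Fin n => c)

theorem pv_zero (t : ℝ) : pv n c t 0 = t := rfl

theorem pv_one (t : ℝ) : pv n c t 1 = -√(1 - n * c ^ 2 - t ^ 2) := rfl

theorem pv_succ (t : ℝ) (k : Fin n) : pv n c t k.succ.succ = c := rfl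

theorem continuous_pv : Continuous (pv n c) := by
  apply continuous_pi
  intro k
  refine Fin.cases ?_ (fun k => Fin.cases ?_ (fun k => ?_) k) k
  · simp only [pv_zero]; fun_prop
  · change Continuous fun t => -√(1 - n * c ^ 2 - t ^ 2)
    fun_prop
  · simp only [pv_succ]; fun_prop

theorem vec_pv {t : ℝ} (ht : 0 ≤ 1 - n * c ^ 2 - t ^ 2) : ‖vec (pv n c t)‖ = 1 := by
  have h1 : ‖vec (pv n c t)‖ ^ 2 = 1 := by
    rw [vec_norm_sq, sum_two, pv_zero, pv_one]
    simp only [pv_succ]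
    rw [neg_sq, Real.sq_sqrt ht]
    simp only [Finset.sum_const, Finset.card_univ, Fintype.card_fin, nsmul_eq_mul]
    ring
  have h2 := norm_nonneg (vec (pv n c t))
  exact (pow_left_inj₀ h2 zero_le_one (two_ne_zero)).1 (by rw [h1, one_pow])

/-- In the second arrangement there is a connected subset of the intersection of the thick
hyperplanes number `2, 3, …` avoiding the thick hyperplane number `1` and that of the sum form,
and meeting both the thick hyperplane number `0` and that of the weighted form. -/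
theorem exists_connected (hc : 0 < c) (hcn : c * (QQ n + n + 10) < 1 / 10) :
    ∃ S : Set (RP (n + 1)), IsPreconnected S ∧
      (∀ k : Fin n, S ⊆ thick c (form wB (Sum.inl k.succ.succ))) ∧
      (∀ p ∈ S, p ∉ thick c (form wB (Sum.inl 1))) ∧
      (∀ p ∈ S, p ∉ thick c (form wB (Sum.inr false))) ∧
      (∃ p ∈ S, p ∈ thick c (form wB (Sum.inl 0))) ∧
      (∃ p ∈ S, p ∈ thick c (form wB (Sum.inr true))) := by
  have hQ := le_QQ n
  have hQ0 := QQ_nonneg n
  have hn : (0 : ℝ) ≤ n := Nat.cast_nonneg n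
  have hcQ0 : 0 ≤ c * QQ n := mul_nonneg hc.le hQ0
  have hcn0 : 0 ≤ c * n := mul_nonneg hc.le hn
  have hexp : c * (QQ n + n + 10) = c * QQ n + c * n + 10 * c := by ring
  have hc10 : c < 1 / 100 := by linarith
  have hc2 : c ^ 2 ≤ (1 / 100) * c := by
    rw [sq]; exact mul_le_mul_of_nonneg_right hc10.le hc.le
  have hcc : (n : ℝ) * c ^ 2 ≤ (1 / 100) := by
    have h3 : (n : ℝ) * c ^ 2 = (c * n) * c := by ring
    have h4 : (c * n) * c ≤ (1 / 10) * c := mul_le_mul_of_nonneg_right (by linarith) hc.le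
    linarith
  set R : ℝ := 1 - n * c ^ 2 with hR
  have hRpos : 0 < R := by linarith
  set ρ : ℝ := √R with hρ
  have hρ2 : ρ ^ 2 = R := Real.sq_sqrt hRpos.le
  have hρ0 : 0 ≤ ρ := Real.sqrt_nonneg _
  -- the function whose zero is the end of the path
  set f : ℝ → ℝ := fun t => 2 * t + (QQ n + 1) * c - √(R - t ^ 2) with hf
  have hfc : Continuous f := by rw [hf]; fun_prop
  have hcρ : c ≤ ρ := by
    by_contra hcon
    have h1 := pow_le_pow_left₀ hρ0 (not_le.1 hcon).le 2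
    rw [hρ2] at h1
    linarith
  have hf0 : f c ≤ 0 := by
    have h1 : 1 / 2 ≤ √(R - c ^ 2) := by
      apply Real.le_sqrt_of_sq_le
      linarith
    have h2 : 2 * c + (QQ n + 1) * c = c * (QQ n + n + 10) - c * n - 7 * c := by ring
    have h3 : f c = 2 * c + (QQ n + 1) * c - √(R - c ^ 2) := rfl
    linarith
  have hf1 : 0 ≤ f ρ := by
    have h1 : f ρ = 2 * ρ + (QQ n + 1) * c - √(R - ρ ^ 2) := rfl
    rw [h1, hρ2, sub_self, Real.sqrt_zero]
    have : 0 ≤ (QQ n + 1) * c := by positivity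
    linarith
  obtain ⟨t1, ht1, hft1⟩ := intermediate_value_Icc hcρ hfc.continuousOn
    (show (0 : ℝ) ∈ Set.Icc (f c) (f ρ) from ⟨hf0, hf1⟩)
  have hft1' : √(R - t1 ^ 2) = 2 * t1 + (QQ n + 1) * c := by
    have h1 : f t1 = 2 * t1 + (QQ n + 1) * c - √(R - t1 ^ 2) := rfl
    linarith
  -- points of the path
  have hmem : ∀ t ∈ Set.Icc c t1, 0 ≤ 1 - n * c ^ 2 - t ^ 2 := by
    intro t ht
    have h1 := pow_le_pow_left₀ (hc.le.trans ht.1) (ht.2.trans ht1.2) 2
    rw [hρ2] at h1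
    linarith
  have hsq : ∀ t ∈ Set.Icc c t1, 2 * t + (QQ n + 1) * c ≤ √(1 - n * c ^ 2 - t ^ 2) := by
    intro t ht
    have h1 : √(R - t1 ^ 2) ≤ √(1 - n * c ^ 2 - t ^ 2) := by
      apply Real.sqrt_le_sqrt
      have := pow_le_pow_left₀ (hc.le.trans ht.1) ht.2 2
      linarith
    have := ht.2
    linarith
  set g : Set.Icc c t1 → Sph (n + 2) := fun t =>
    ⟨vec (pv n c t), by rw [mem_sphere_zero_iff_norm]; exact vec_pv (hmem t t.2)⟩ with hg
  have hgc : Continuous g := by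
    apply Continuous.subtype_mk
    exact (PiLp.continuous_toLp 2 _).comp (continuous_pv.comp continuous_subtype_val)
  have hgco : ∀ t : Set.Icc c t1, (g t).co = pv n c t := fun t => rfl
  have : PreconnectedSpace (Set.Icc c t1) := Subtype.preconnectedSpace isPreconnected_Icc
  have hsumpv : ∀ t : ℝ, ∑ k, pv n c t k = t - √(1 - n * c ^ 2 - t ^ 2) + n * c := by
    intro t
    rw [sum_two, pv_zero, pv_one]
    simp only [pv_succ, Finset.sum_const, Finset.card_univ, Fintype.card_fin, nsmul_eq_mul]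
    ring
  refine ⟨Set.range fun t : Set.Icc c t1 => (proj (g t) : RP (n + 1)),
    isPreconnected_range (continuous_proj.comp hgc), ?_, ?_, ?_, ?_, ?_⟩
  · rintro k _ ⟨t, rfl⟩
    rw [mem_thick_iff, hgco]
    simp [form, pv_succ, abs_of_pos hc]
  · rintro _ ⟨t, rfl⟩
    rw [mem_thick_iff, hgco]
    simp only [form, single_one_dotProduct]
    rw [pv_one, abs_neg, abs_of_nonneg (Real.sqrt_nonneg _)]
    have h1 := hsq t t.2
    have h2 := t.2.1
    have h3 : 0 ≤ (QQ n + 1) * c := by positivity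
    intro h
    linarith
  · rintro _ ⟨t, rfl⟩
    rw [mem_thick_iff, hgco]
    have h0 : form wB (Sum.inr false) ⬝ᵥ pv n c t = ∑ k, pv n c t k := by
      simp [form, dotProduct]
    rw [h0, hsumpv]
    have h1 := hsq t t.2
    have h2 := t.2.1
    have h3 : (n : ℝ) * c ≤ QQ n * c := mul_le_mul_of_nonneg_right hQ hc.le
    have h4 : (QQ n + 1) * c = QQ n * c + c := by ring
    intro h
    have h5 := (abs_le.1 h.le).1
    linarith
  · refine ⟨_, ⟨⟨c, le_rfl, ht1.1⟩, rfl⟩, ?_⟩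
    rw [mem_thick_iff, hgco]
    simp only [form, single_one_dotProduct]
    rw [pv_zero, abs_of_pos hc]
  · refine ⟨_, ⟨⟨t1, ht1.1, le_rfl⟩, rfl⟩, ?_⟩
    rw [mem_thick_iff, hgco]
    have h0 : form wB (Sum.inr true) ⬝ᵥ pv n c t1 =
        2 * t1 - √(1 - n * c ^ 2 - t1 ^ 2) + QQ n * c := by
      change ∑ k, wB k * pv n c t1 k = _
      rw [sum_two, pv_zero, pv_one]
      simp only [pv_succ, wB, Fin.cons_zero, Fin.cons_succ]
      have w1 : (Fin.cons (2 : ℝ) (Fin.cons (1 : ℝ) fun k : Fin n => (k : ℝ) + 3 :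
        Fin (n + 1) → ℝ) : Fin (n + 2) → ℝ) 1 = 1 := rfl
      rw [w1, ← Finset.sum_mul]
      change 2 * t1 + (1 * _ + QQ n * c) = _
      ring
    have h1 : √(1 - n * c ^ 2 - t1 ^ 2) = 2 * t1 + (QQ n + 1) * c := hft1'
    change |form wB (Sum.inr true) ⬝ᵥ pv n c t1| = c
    rw [h0, h1]
    have h2 : 2 * t1 - (2 * t1 + (QQ n + 1) * c) + QQ n * c = -c := by ring
    rw [h2, abs_neg, abs_of_pos hc]

/-- No self-homeomorphism of projective space carries each thick hyperplane of the first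
configuration onto the corresponding one of the second. -/
theorem not_iso (hc : 0 < c) (hcn : c * (QQ n + n + 10) < 1 / 10) (h : RP (n + 1) ≃ₜ RP (n + 1))
    (hh : ∀ i, h '' thick c (form wA i) = thick c (form wB i)) : False := by
  obtain ⟨S, hS, h2, h1, hs, ⟨p0, hp0, hp0'⟩, ⟨p1, hp1, hp1'⟩⟩ := exists_connected hc hcn
  have key : ∀ i p, p ∈ thick c (form wB i) ↔ h.symm p ∈ thick c (form wA i) := by
    intro i p
    rw [← hh i]
    constructor
    · rintro ⟨q, hq, rfl⟩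
      rwa [Homeomorph.symm_apply_apply]
    · intro hp
      exact ⟨h.symm p, hp, h.apply_symm_apply p⟩
  refine obstruction hc hcn (h.symm '' S) (hS.image _ h.symm.continuous.continuousOn) ?_ ?_ ?_
    (Set.mem_image_of_mem _ hp0) (Set.mem_image_of_mem _ hp1) ((key _ _).1 hp0')
    ((key _ _).1 hp1')
  · rintro k _ ⟨p, hp, rfl⟩
    exact (key _ _).1 (h2 k hp)
  · rintro _ ⟨p, hp, rfl⟩ hcon
    exact h1 p hp ((key _ _).2 hcon)
  · rintro _ ⟨p, hp, rfl⟩ hcon
    exact hs p hp ((key _ _).2 hcon)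

end

/-- Main theorem. -/
theorem main (d : ℕ) (hd : 3 ≤ d) (hodd : Odd d) :
    ∃ A B : OrientedArrangement d (Fin (d + 1) ⊕ Bool),
      A.chirotope = B.chirotope ∧
      ¬ A.Isomorphic B ∧
      ¬ ∃ h : RP d ≃ₜ RP d, ∀ i, h '' A.carrier i = B.carrier i := by
  obtain ⟨n, rfl⟩ : ∃ n, d = n + 1 := ⟨d - 1, by omega⟩
  have hQ0 := QQ_nonneg n
  have hn : (0 : ℝ) ≤ n := Nat.cast_nonneg n
  obtain ⟨c, hc, hcβ, hgA, hgB⟩ := exists_const (d := n + 1) wA_injective wA_ne_zero wB_injective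
    wB_ne_zero (β := 1 / (10 * (QQ n + n + 10))) (by positivity)
  have hcn : c * (QQ n + n + 10) < 1 / 10 := by
    rw [lt_div_iff₀ (by positivity)] at hcβ
    linarith
  have hc1 : c < 1 := by
    have h0 : 0 ≤ c * (QQ n + n) := by positivity
    have h1 : c * (QQ n + n + 10) = c * (QQ n + n) + 10 * c := by ring
    linarith
  have hI : (n + 1) + 1 ≤ Nat.card (Fin ((n + 1) + 1) ⊕ Bool) := by
    rw [Nat.card_eq_fintype_card, card_I]
    omega
  have hd2 : 2 ≤ n + 1 := by omega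
  set CA : Conf (n + 1) (Fin ((n + 1) + 1) ⊕ Bool) c := ⟨form wA, hgA⟩
  set CB : Conf (n + 1) (Fin ((n + 1) + 1) ⊕ Bool) c := ⟨form wB, hgB⟩
  have hno : ¬ ∃ h : RP (n + 1) ≃ₜ RP (n + 1), ∀ i,
      h '' (oarr hc hc1 hd2 hI CA).carrier i = (oarr hc hc1 hd2 hI CB).carrier i := by
    rintro ⟨h, hh⟩
    exact not_iso hc hcn h hh
  refine ⟨oarr hc hc1 hd2 hI CA, oarr hc hc1 hd2 hI CB,
    chirotope_eq hd2 hodd hI hc hc1 CA CB, ?_, hno⟩
  rintro ⟨h, hh⟩
  exact hno ⟨h, fun i => (hh i).1⟩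

end Pool.Agent.Helper80.DPH
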