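import Pool.Agent.Helper80.DPH.Conf

/-!
# Orientations of the thick hyperplanes, and equality of chirotopes
-/

namespace Pool.Agent.Helper80.DPH

open Matrix

variable {d : ℕ} {I : Type} {c : ℝ}

/-! ### Reflections of the sphere -/

/-- the diagonal sign matrix of determinant `(-1)^j` -/
def RR (d j : ℕ) : Matrix (Fin d) (Fin d) ℝ :=
  diagonal fun k => if (k : ℕ) = 0 then (-1) ^ j else 1

theorem RR_mul (d j : ℕ) : RR d j * RR d j = 1 := by
  rw [RR, diagonal_mul_diagonal, ← diagonal_one]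
  congr 1
  funext k
  split_ifs
  · rw [← mul_pow]; norm_num
  · norm_num

theorem RR_det (hd : 0 < d) (j : ℕ) : (RR d j).det = (-1) ^ j := by
  rw [RR, det_diagonal]
  rw [Finset.prod_eq_single (⟨0, hd⟩ : Fin d)]
  · simp
  · intro k _ hk
    rw [if_neg]
    intro h
    exact hk (Fin.ext h)
  · intro h
    exact absurd (Finset.mem_univ _) h

theorem RR_det_ne (d j : ℕ) : (RR d j).det ≠ 0 := by
  intro h
  have h1 := congrArg det (RR_mul d j)
  rw [det_mul, h, zero_mul, det_one] at h1
  exact zero_ne_one h1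

theorem RR_inv (d j : ℕ) (u : Sph d) :
    linmap (RR d j) (RR_det_ne d j) (linmap (RR d j) (RR_det_ne d j) u) = u := by
  have h1 : (RR d j * RR d j).det ≠ 0 := by rw [RR_mul, det_one]; exact one_ne_zero
  have h2 := linmap_comp (RR_det_ne d j) (RR_det_ne d j) h1
  have h3 := congrArg (fun f : C(Sph d, Sph d) => f u) h2
  simp only [ContinuousMap.comp_apply] at h3
  rw [h3]
  have h4 : linmap (RR d j * RR d j) h1 = ContinuousMap.id (Sph d) := by
    have h5 : (1 : Matrix (Fin d) (Fin d) ℝ).det ≠ 0 := by rw [det_one]; exact one_ne_zero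
    rw [← linmap_one h5]
    congr 1
    exact RR_mul d j
  rw [h4]
  rfl

/-- the reflection (or identity) of the sphere -/
noncomputable def refl (d j : ℕ) : Sph d ≃ₜ Sph d where
  toFun := linmap (RR d j) (RR_det_ne d j)
  invFun := linmap (RR d j) (RR_det_ne d j)
  left_inv := RR_inv d j
  right_inv := RR_inv d j
  continuous_toFun := (linmap (RR d j) (RR_det_ne d j)).continuous
  continuous_invFun := (linmap (RR d j) (RR_det_ne d j)).continuous

section

variable (hc : 0 < c) (hc1 : c < 1)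

/-- the parametrisation of the thick hyperplane number `e j` determined by a frame, corrected
by a reflection -/
noncomputable def Frame.par {C : Conf d I c} {e : Fin (d + 1) → I} (F : Frame C e)
    (j : Fin (d + 1)) : Sph d ≃ₜ (thick c (C.L (e j)) : Set (RP d)) :=
  (refl d j).trans (phi hc hc1 F.good j (F.hyp_eq j))

theorem Frame.par_apply {C : Conf d I c} {e : Fin (d + 1) → I} (F : Frame C e)
    (j : Fin (d + 1)) (u : Sph d) :
    (F.par hc hc1 j u : RP d) = phiFun hc hc1 F.good j (refl d j u) := rfl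

/-- All frames induce the same orientation (odd dimension). -/
theorem Frame.par_homotopic (hd : Odd d) {C : Conf d I c} {e e' : Fin (d + 1) → I}
    (F : Frame C e) (F' : Frame C e') (j : Fin (d + 1)) (h : e' 0 = e j)
    {X : Set (RP d)} (hX : thick c (C.L (e j)) = X) (hX' : thick c (C.L (e' 0)) = X) :
    ContinuousMap.Homotopic
      (((F.par hc hc1 j).trans (Homeomorph.setCongr hX) : Sph d ≃ₜ X) : C(Sph d, X))
      (((F'.par hc hc1 0).trans (Homeomorph.setCongr hX') : Sph d ≃ₜ X) : C(Sph d, X)) := by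
  have hdpos : 0 < d := hd.pos
  set s : ℝ := F'.ε 0 * F.ε j with hs
  have hs1 : s = 1 ∨ s = -1 := by
    rw [hs]
    rcases F'.hε 0 with h1 | h1 <;> rcases F.hε j with h2 | h2 <;> rw [h1, h2] <;> norm_num
  have hrow : ∀ x : Fin (d + 1) → ℝ, (F'.M *ᵥ x) 0 = s * (F.M *ᵥ x) j := by
    intro x
    have h1 : (F'.M *ᵥ x) 0 = F'.M 0 ⬝ᵥ x := rfl
    have h2 : (F.M *ᵥ x) j = F.M j ⬝ᵥ x := rfl
    rw [h1, h2, F'.rows, F.rows, h, smul_dotProduct, smul_dotProduct, smul_eq_mul, smul_eq_mul,
      hs]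
    rcases F.hε j with h3 | h3 <;> rw [h3] <;> ring
  have hspow : s ^ (d + 1) = 1 := by
    have : Even (d + 1) := hd.add_one
    rcases hs1 with h1 | h1 <;> rw [h1]
    · simp
    · exact this.neg_one_pow
  have hdet : 0 < (-1) ^ (((0 : Fin (d + 1)) : ℕ) + (j : ℕ)) *
      (s ^ (d + 1) * (F'.M.det * F.M.det⁻¹)) * (RR d j).det := by
    rw [hspow, RR_det hdpos, one_mul, Fin.val_zero, zero_add]
    have h1 : 0 < F'.M.det * F.M.det⁻¹ := mul_pos F'.pos (inv_pos.2 F.pos)
    have h2 : ((-1 : ℝ) ^ (j : ℕ)) * (-1) ^ (j : ℕ) = 1 := by rw [← mul_pow]; norm_num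
    have h3 : (-1 : ℝ) ^ (j : ℕ) * (F'.M.det * F.M.det⁻¹) * (-1) ^ (j : ℕ) =
        ((-1 : ℝ) ^ (j : ℕ) * (-1) ^ (j : ℕ)) * (F'.M.det * F.M.det⁻¹) := by ring
    rw [h3, h2, one_mul]
    exact h1
  have key := phi_homotopic hc hc1 F.good F'.good hs1 hrow ((F.hyp_eq j).trans hX)
    ((F'.hyp_eq 0).trans hX') (RR_det_ne d j) hdet
  have e1 : (((F.par hc hc1 j).trans (Homeomorph.setCongr hX) : Sph d ≃ₜ X) : C(Sph d, X)) =
      (phi hc hc1 F.good j ((F.hyp_eq j).trans hX) : C(Sph d, X)).comp
        (linmap (RR d j) (RR_det_ne d j)) := by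
    ext1 u
    rfl
  have e2 : (((F'.par hc hc1 0).trans (Homeomorph.setCongr hX') : Sph d ≃ₜ X) : C(Sph d, X)) =
      (phi hc hc1 F'.good 0 ((F'.hyp_eq 0).trans hX') : C(Sph d, X)) := by
    ext1 u
    apply Subtype.ext
    change phiFun hc hc1 F'.good 0 (refl d 0 u) = phiFun hc hc1 F'.good 0 u
    congr 1
    have h4 : (1 : Matrix (Fin d) (Fin d) ℝ).det ≠ 0 := by rw [det_one]; exact one_ne_zero
    have h5 : RR d 0 = 1 := by
      rw [RR, ← diagonal_one]
      congr 1
      funext k
      simp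
    change linmap (RR d 0) (RR_det_ne d 0) u = u
    have h6 : linmap (RR d 0) (RR_det_ne d 0) = linmap 1 h4 := by
      congr 1
    rw [h6, linmap_one]
    rfl
  rw [e1, e2]
  exact key

/-- the injective function starting with a given index -/
noncomputable def baseIdx [Finite I] (hI : d + 1 ≤ Nat.card I) (i : I) : Fin (d + 1) → I :=
  (exists_inj_zero hI i).choose

theorem baseIdx_inj [Finite I] (hI : d + 1 ≤ Nat.card I) (i : I) :
    Function.Injective (baseIdx hI i) := (exists_inj_zero hI i).choose_spec.1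

theorem baseIdx_zero [Finite I] (hI : d + 1 ≤ Nat.card I) (i : I) : baseIdx hI i 0 = i :=
  (exists_inj_zero hI i).choose_spec.2

/-- the base frame -/
noncomputable def baseFrame [Finite I] (hI : d + 1 ≤ Nat.card I) (C : Conf d I c) (i : I) :
    Frame C (baseIdx hI i) := (exists_frame C (baseIdx_inj hI i)).some

/-- the base parametrisation of a thick hyperplane of a configuration -/
noncomputable def basePar [Finite I] (hI : d + 1 ≤ Nat.card I) (C : Conf d I c) (i : I) :
    Sph d ≃ₜ (thick c (C.L i) : Set (RP d)) :=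
  ((baseFrame hI C i).par hc hc1 0).trans
    (Homeomorph.setCongr (by rw [baseIdx_zero hI i]))

/-- the oriented arrangement of thick hyperplanes of a configuration -/
noncomputable def oarr [Finite I] (hd : 2 ≤ d) (hI : d + 1 ≤ Nat.card I) (C : Conf d I c) :
    OrientedArrangement d I where
  toArrangement := arr hd hI hc hc1 C
  orient i := Quotient.mk (orientationSetoid _) (basePar hc hc1 hI C i)

theorem mk_par_eq [Finite I] (hodd : Odd d) (hI : d + 1 ≤ Nat.card I) {C : Conf d I c}
    {e : Fin (d + 1) → I} (F : Frame C e) (j : Fin (d + 1)) :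
    Quotient.mk (orientationSetoid _) (F.par hc hc1 j) =
      Quotient.mk (orientationSetoid _) (basePar hc hc1 hI C (e j)) := by
  apply Quotient.sound
  exact Frame.par_homotopic hc hc1 hodd F (baseFrame hI C (e j)) j (baseIdx_zero hI (e j)) rfl
    (by rw [baseIdx_zero hI (e j)])

/-- The homeomorphism given by two frames over the same indices respects the orientations. -/
theorem hmap_orient [Finite I] (hodd : Odd d) (hI : d + 1 ≤ Nat.card I) {C C' : Conf d I c}
    {e : Fin (d + 1) → I} (F : Frame C e) (F' : Frame C' e) (j : Fin (d + 1)) :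
    MapsOrientation (hmap hc hc1 F.good F'.good)
      (Quotient.mk (orientationSetoid _) (basePar hc hc1 hI C (e j)))
      (Quotient.mk (orientationSetoid _) (basePar hc hc1 hI C' (e j))) := by
  refine ⟨F.par hc hc1 j, F'.par hc hc1 j, mk_par_eq hc hc1 hodd hI F j,
    mk_par_eq hc hc1 hodd hI F' j, fun u => ?_⟩
  rw [Frame.par_apply, Frame.par_apply, hmap_phiFun]

end

/-! ### Isomorphism is an equivalence relation -/

theorem MapsOrientation.symm {X Y : Set (RP d)} {h : RP d ≃ₜ RP d} {o : Orientation X}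
    {o' : Orientation Y} (H : MapsOrientation h o o') : MapsOrientation h.symm o' o := by
  obtain ⟨φ, ψ, h1, h2, h3⟩ := H
  refine ⟨ψ, φ, h2, h1, fun u => ?_⟩
  rw [← h3, Homeomorph.symm_apply_apply]

theorem MapsOrientation.trans {X Y Z : Set (RP d)} {h h' : RP d ≃ₜ RP d} {o : Orientation X}
    {o' : Orientation Y} {o'' : Orientation Z} (hYZ : h' '' Y = Z) (H : MapsOrientation h o o')
    (H' : MapsOrientation h' o' o'') : MapsOrientation (h.trans h') o o'' := by
  obtain ⟨φ, ψ, h1, h2, h3⟩ := H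
  obtain ⟨φ', ψ', h1', h2', h3'⟩ := H'
  set r : Y ≃ₜ Z := (h'.image Y).trans (Homeomorph.setCongr hYZ) with hr
  have hrv : ∀ y : Y, (r y : RP d) = h' y := fun y => rfl
  refine ⟨φ, ψ.trans r, h1, ?_, fun u => ?_⟩
  · rw [← h2']
    apply Quotient.sound
    have h4 : ContinuousMap.Homotopic (ψ : C(Sph d, Y)) (φ' : C(Sph d, Y)) :=
      Quotient.exact (h2.trans h1'.symm)
    have h5 := (ContinuousMap.Homotopic.refl (r : C(Y, Z))).comp h4
    have e1 : (r : C(Y, Z)).comp (ψ : C(Sph d, Y)) = ((ψ.trans r : Sph d ≃ₜ Z) : C(Sph d, Z)) := by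
      ext1 u; rfl
    have e2 : (r : C(Y, Z)).comp (φ' : C(Sph d, Y)) = (ψ' : C(Sph d, Z)) := by
      ext1 u
      apply Subtype.ext
      exact h3' u
    rw [e1, e2] at h5
    exact h5
  · change h' (h (φ u)) = (r (ψ u) : RP d)
    rw [hrv, h3]

theorem OrientedArrangement.Isomorphic.symm {A B : OrientedArrangement d I}
    (H : A.Isomorphic B) : B.Isomorphic A := by
  obtain ⟨h, hh⟩ := H
  refine ⟨h.symm, fun i => ⟨?_, (hh i).2.symm⟩⟩
  rw [← (hh i).1, ← Set.image_comp]
  simp

theorem OrientedArrangement.Isomorphic.trans {A B C : OrientedArrangement d I}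
    (H : A.Isomorphic B) (H' : B.Isomorphic C) : A.Isomorphic C := by
  obtain ⟨h, hh⟩ := H
  obtain ⟨h', hh'⟩ := H'
  refine ⟨h.trans h', fun i => ⟨?_, (hh i).2.trans (hh' i).1 (hh' i).2⟩⟩
  rw [← (hh' i).1, ← (hh i).1, ← Set.image_comp]
  rfl

theorem isoClass_eq {A B : OrientedArrangement d I} (H : A.Isomorphic B) :
    A.isoClass = B.isoClass := by
  ext D
  exact ⟨fun h => H.symm.trans h, fun h => H.trans h⟩

/-- In odd dimension, any two configurations with the same index set and the same constant have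
the same chirotope. -/
theorem chirotope_eq [Finite I] (hd : 2 ≤ d) (hodd : Odd d) (hI : d + 1 ≤ Nat.card I)
    (hc : 0 < c) (hc1 : c < 1) (C C' : Conf d I c) :
    (oarr hc hc1 hd hI C).chirotope = (oarr hc hc1 hd hI C').chirotope := by
  funext J
  apply isoClass_eq
  obtain ⟨J, hJ⟩ := J
  set ee : Fin (d + 1) ≃ J := (J.equivFinOfCardEq hJ).symm with hee
  set e : Fin (d + 1) → I := fun j => (ee j : I) with he
  have hinj : Function.Injective e := fun p q h => ee.injective (Subtype.ext h)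
  obtain ⟨F⟩ := exists_frame C hinj
  obtain ⟨F'⟩ := exists_frame C' hinj
  refine ⟨hmap hc hc1 F.good F'.good, fun i => ?_⟩
  obtain ⟨j, rfl⟩ := ee.surjective i
  refine ⟨?_, hmap_orient hc hc1 hodd hI F F' j⟩
  change hmap hc hc1 F.good F'.good '' thick c (C.L (e j)) = thick c (C'.L (e j))
  rw [← F.hyp_eq j, ← F'.hyp_eq j, hmap_image]

end Pool.Agent.Helper80.DPH
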