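import Pool.Agent.Helper80.DPH.Straight

/-!
# Projective space: separation, homeomorphisms from odd maps, standard parametrisations
-/

namespace Pool.Agent.Helper80.DPH

open Matrix

variable {d : ℕ}

theorem proj_eq_iff {x y : Sph (d + 1)} : (proj x : RP d) = proj y ↔ y = x ∨ y = -x :=
  Quotient.eq (r := antipodal (d + 1))

theorem proj_neg (x : Sph (d + 1)) : (proj (-x) : RP d) = proj x :=
  (proj_eq_iff.2 (Or.inr rfl)).symm

theorem proj_surjective : Function.Surjective (proj : Sph (d + 1) → RP d) := Quot.mk_surjective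

theorem continuous_proj : Continuous (proj : Sph (d + 1) → RP d) := continuous_quot_mk

/-- continuity of maps defined on projective space -/
theorem continuous_of_proj {Y : Type*} [TopologicalSpace Y] {f : RP d → Y}
    (hf : Continuous (f ∘ proj)) : Continuous f := continuous_coinduced_dom.2 hf

theorem Sph.co_ne_zero {m : ℕ} (x : Sph m) : x.co ≠ 0 := by
  intro h
  have h1 : x.1 = 0 := congrArg (WithLp.toLp 2) h
  have := x.norm_eq
  rw [h1, norm_zero] at this
  exact zero_ne_one this

theorem Sph.ext_co {m : ℕ} {x y : Sph m} (h : x.co = y.co) : x = y :=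
  Subtype.ext (congrArg (WithLp.toLp 2) h)

/-- the Veronese map -/
noncomputable def veronese (p : RP d) : Fin (d + 1) → Fin (d + 1) → ℝ :=
  Quotient.lift (s := antipodal (d + 1)) (fun x : Sph (d + 1) => fun i j => x.co i * x.co j)
    (by
      rintro x y (h | h)
      · rw [h]
      · subst h
        funext i j
        change _ = (-x.co) i * (-x.co) j
        simp) p

theorem veronese_proj (x : Sph (d + 1)) : veronese (proj x) = fun i j => x.co i * x.co j := rfl

theorem continuous_veronese : Continuous (veronese : RP d → _) := by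
  apply continuous_of_proj
  have h : Continuous fun x : Sph (d + 1) => x.co :=
    (PiLp.continuous_ofLp 2 _).comp continuous_subtype_val
  apply continuous_pi
  intro i
  apply continuous_pi
  intro j
  exact ((continuous_apply i).comp h).mul ((continuous_apply j).comp h)

theorem veronese_injective : Function.Injective (veronese : RP d → _) := by
  intro p q h
  obtain ⟨x, rfl⟩ := proj_surjective p
  obtain ⟨y, rfl⟩ := proj_surjective q
  rw [veronese_proj, veronese_proj] at h
  have h' : ∀ i j, x.co i * x.co j = y.co i * y.co j := fun i j => congrFun (congrFun h i) j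
  obtain ⟨k, hk⟩ := Function.ne_iff.1 x.co_ne_zero
  have hk : x.co k ≠ 0 := hk
  rw [proj_eq_iff]
  have h1 := h' k k
  rcases mul_self_eq_mul_self_iff.1 h1 with h2 | h2
  · left
    apply Sph.ext_co
    funext j
    have := h' k j
    rw [← h2] at this
    exact (mul_left_cancel₀ hk this).symm
  · right
    apply Sph.ext_co
    funext j
    have := h' k j
    have h3 : y.co k = -x.co k := by rw [h2, neg_neg]
    rw [h3] at this
    have h4 : x.co k * x.co j = x.co k * (-y.co j) := by rw [this]; ring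
    have h5 := mul_left_cancel₀ hk h4
    change y.co j = -x.co j
    rw [h5, neg_neg]

instance : T2Space (RP d) := T2Space.of_injective_continuous veronese_injective continuous_veronese

/-- the self-homeomorphism of projective space induced by an odd self-homeomorphism of the
sphere -/
def rpHomeo (g : Sph (d + 1) ≃ₜ Sph (d + 1)) (hg : ∀ x, g (-x) = -g x) : RP d ≃ₜ RP d where
  toFun := Quotient.map (sa := antipodal (d + 1)) (sb := antipodal (d + 1)) g (by
    rintro x y (h | h)
    · exact Or.inl (by rw [h])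
    · exact Or.inr (by rw [h, hg]))
  invFun := Quotient.map (sa := antipodal (d + 1)) (sb := antipodal (d + 1)) g.symm (by
    rintro x y (h | h)
    · exact Or.inl (by rw [h])
    · refine Or.inr ?_
      apply g.injective
      rw [g.apply_symm_apply, hg, g.apply_symm_apply, h])
  left_inv := by
    intro p
    obtain ⟨x, rfl⟩ := proj_surjective p
    exact congrArg proj (g.symm_apply_apply x)
  right_inv := by
    intro p
    obtain ⟨x, rfl⟩ := proj_surjective p
    exact congrArg proj (g.apply_symm_apply x)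
  continuous_toFun := continuous_of_proj (continuous_proj.comp g.continuous)
  continuous_invFun := continuous_of_proj (continuous_proj.comp g.symm.continuous)

theorem rpHomeo_proj (g : Sph (d + 1) ≃ₜ Sph (d + 1)) (hg : ∀ x, g (-x) = -g x)
    (x : Sph (d + 1)) : rpHomeo g hg (proj x) = proj (g x) := rfl

theorem rpHomeo_image (g : Sph (d + 1) ≃ₜ Sph (d + 1)) (hg : ∀ x, g (-x) = -g x)
    {P Q : Set (Sph (d + 1))} (h : ∀ x, x ∈ P ↔ g x ∈ Q) :
    rpHomeo g hg '' (proj '' P) = proj '' Q := by
  ext p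
  constructor
  · rintro ⟨_, ⟨x, hx, rfl⟩, rfl⟩
    exact ⟨g x, (h x).1 hx, rfl⟩
  · rintro ⟨y, hy, rfl⟩
    refine ⟨proj (g.symm y), ⟨g.symm y, (h _).2 (by rwa [g.apply_symm_apply]), rfl⟩, ?_⟩
    rw [rpHomeo_proj, g.apply_symm_apply]

/-- the thick hyperplane given by a row of a matrix -/
def hyp (c : ℝ) (M : Matrix (Fin (d + 1)) (Fin (d + 1)) ℝ) (j : Fin (d + 1)) : Set (RP d) :=
  proj '' {x | |(M *ᵥ x.co) j| = c}

section

variable {c : ℝ} (hc : 0 < c) (hc1 : c < 1) {M M' : Matrix (Fin (d + 1)) (Fin (d + 1)) ℝ}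
  (hM : Good c M) (hM' : Good c M')

/-- the homeomorphism of projective space carrying the thick hyperplanes of `M` onto those of
`M'` -/
noncomputable def hmap : RP d ≃ₜ RP d :=
  rpHomeo ((fhom hc hc1 hM).trans (fhom hc hc1 hM').symm) (by
    intro x
    rw [Homeomorph.trans_apply, Homeomorph.trans_apply, fhom_neg, fhom_symm_neg])

theorem hmap_proj (x : Sph (d + 1)) : hmap hc hc1 hM hM' (proj x) =
    proj ((fhom hc hc1 hM').symm (fhom hc hc1 hM x)) := rfl

theorem hmap_image (j : Fin (d + 1)) : hmap hc hc1 hM hM' '' hyp c M j = hyp c M' j := by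
  apply rpHomeo_image
  intro x
  change |(M *ᵥ x.co) j| = c ↔
    |(M' *ᵥ ((fhom hc hc1 hM').symm (fhom hc hc1 hM x)).co) j| = c
  rw [← abs_fhom_eq_iff hc hc1 hM, ← abs_fhom_eq_iff hc hc1 hM', Homeomorph.apply_symm_apply]

/-! ### Normalisation -/

/-- normalisation of a nonzero vector -/
noncomputable def nrm {n : ℕ} (w : Fin n → ℝ) (hw : w ≠ 0) : Sph n :=
  ⟨‖vec w‖⁻¹ • vec w, by
    rw [mem_sphere_zero_iff_norm, norm_smul, norm_inv, norm_norm, inv_mul_cancel₀]
    rw [norm_ne_zero_iff]
    intro h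
    exact hw (congrArg WithLp.ofLp h)⟩

theorem vec_norm_pos {n : ℕ} {w : Fin n → ℝ} (hw : w ≠ 0) : 0 < ‖vec w‖ := by
  rw [norm_pos_iff]
  intro h
  exact hw (congrArg WithLp.ofLp h)

theorem nrm_co {n : ℕ} (w : Fin n → ℝ) (hw : w ≠ 0) : (nrm w hw).co = ‖vec w‖⁻¹ • w := rfl

/-- two points of the sphere whose coordinates are positively proportional are equal -/
theorem Sph.eq_of_smul {n : ℕ} {x y : Sph n} {r : ℝ} (hr : 0 < r) (h : x.co = r • y.co) :
    x = y := by
  have h1 : x.1 = r • y.1 := congrArg (WithLp.toLp 2) h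
  have h2 := x.norm_eq
  rw [h1, norm_smul, y.norm_eq, mul_one, Real.norm_of_nonneg hr.le] at h2
  rw [h2, one_smul] at h1
  exact Subtype.ext h1

theorem nrm_smul {n : ℕ} {w : Fin n → ℝ} (hw : w ≠ 0) {r : ℝ} (hr : 0 < r) (hw' : r • w ≠ 0) :
    nrm (r • w) hw' = nrm w hw := by
  apply Sph.eq_of_smul (r := ‖vec (r • w)‖⁻¹ * r * ‖vec w‖)
  · have := vec_norm_pos hw
    have := vec_norm_pos hw'
    positivity
  · rw [nrm_co, nrm_co, smul_smul, smul_smul, mul_assoc _ (‖vec w‖),
      mul_inv_cancel₀ (vec_norm_pos hw).ne', mul_one]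

theorem nrm_self {n : ℕ} (u : Sph n) : nrm u.co u.co_ne_zero = u := by
  apply Sph.eq_of_smul (r := ‖vec u.co‖⁻¹)
  · exact inv_pos.2 (vec_norm_pos u.co_ne_zero)
  · rfl

theorem norm_insertNth (j : Fin (d + 1)) {c : ℝ} (hc : 0 < c) (hc1 : c < 1) {w : Fin d → ℝ}
    (hw : ‖w‖ = 1) : ‖(j.insertNth c w : Fin (d + 1) → ℝ)‖ = 1 := by
  apply le_antisymm
  · rw [pi_norm_le_iff_of_nonneg zero_le_one]
    intro k
    refine Fin.succAboveCases j ?_ (fun i => ?_) k
    · rw [Fin.insertNth_apply_same, Real.norm_of_nonneg hc.le]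
      exact hc1.le
    · rw [Fin.insertNth_apply_succAbove, ← hw]
      exact norm_le_pi_norm w i
  · rw [← hw]
    rw [pi_norm_le_iff_of_nonneg (norm_nonneg _)]
    intro i
    have := norm_le_pi_norm (j.insertNth c w : Fin (d + 1) → ℝ) (j.succAbove i)
    rwa [Fin.insertNth_apply_succAbove] at this

/-- the standard parametrisation of the positive sheet of the `j`-th thick hyperplane of the
cube -/
noncomputable def theta (hc : 0 < c) (hc1 : c < 1) (j : Fin (d + 1)) (u : Sph d) : Cb (d + 1) :=
  ⟨j.insertNth c (‖u.co‖⁻¹ • u.co), by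
    rw [mem_sphere_zero_iff_norm]
    apply norm_insertNth j hc hc1
    rw [norm_smul, norm_inv, norm_norm, inv_mul_cancel₀]
    exact norm_ne_zero_iff.2 u.co_ne_zero⟩

theorem continuous_co {m : ℕ} : Continuous (Sph.co : Sph m → _) :=
  (PiLp.continuous_ofLp 2 _).comp continuous_subtype_val

theorem continuous_theta (j : Fin (d + 1)) : Continuous (theta (d := d) hc hc1 j) := by
  apply Continuous.subtype_mk
  have h : Continuous fun u : Sph d => ‖u.co‖⁻¹ • u.co :=
    (continuous_co.norm.inv₀ fun u => norm_ne_zero_iff.2 u.co_ne_zero).smul continuous_co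
  apply continuous_pi
  intro k
  refine Fin.succAboveCases j ?_ (fun i => ?_) k
  · simp only [Fin.insertNth_apply_same]
    exact continuous_const
  · simp only [Fin.insertNth_apply_succAbove]
    exact (continuous_apply i).comp h

theorem theta_same (j : Fin (d + 1)) (u : Sph d) : (theta hc hc1 j u).1 j = c := by
  simp only [theta, Fin.insertNth_apply_same]

theorem theta_succAbove (j : Fin (d + 1)) (u : Sph d) (i : Fin d) :
    (theta hc hc1 j u).1 (j.succAbove i) = ‖u.co‖⁻¹ * u.co i := by
  simp only [theta, Fin.insertNth_apply_succAbove, Pi.smul_apply, smul_eq_mul]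

include hc1 in
theorem Cb.norm_removeNth {j : Fin (d + 1)} {z : Cb (d + 1)} (hz : z.1 j = c) (hc : 0 < c) :
    ‖(j.removeNth z.1 : Fin d → ℝ)‖ = 1 := by
  have h1 := z.norm_eq
  apply le_antisymm
  · rw [pi_norm_le_iff_of_nonneg zero_le_one]
    intro i
    exact (norm_le_pi_norm z.1 (j.succAbove i)).trans_eq h1
  · obtain ⟨k, hk⟩ := exists_abs_eq_norm (y := z.1) (by rw [h1]; exact one_pos)
    rw [h1] at hk
    rcases Fin.eq_self_or_eq_succAbove j k with h | ⟨i, h⟩
    · rw [h, hz, abs_of_pos hc] at hk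
      exact absurd hk hc1.ne
    · rw [h] at hk
      exact hk.symm.le.trans (norm_le_pi_norm (j.removeNth z.1 : Fin d → ℝ) i)

include hc1 in
theorem Cb.removeNth_ne_zero {j : Fin (d + 1)} {z : Cb (d + 1)} (hz : z.1 j = c) (hc : 0 < c) :
    (j.removeNth z.1 : Fin d → ℝ) ≠ 0 := by
  intro h
  have := Cb.norm_removeNth hc1 hz hc
  rw [h, norm_zero] at this
  exact zero_ne_one this

theorem theta_nrm {j : Fin (d + 1)} {z : Cb (d + 1)} (hz : z.1 j = c) :
    theta hc hc1 j (nrm (j.removeNth z.1) (Cb.removeNth_ne_zero hc1 hz hc)) = z := by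
  have h1 := Cb.norm_removeNth hc1 hz hc
  have h0 := Cb.removeNth_ne_zero hc1 hz hc
  have h2 := vec_norm_pos h0
  apply Subtype.ext
  funext k
  refine Fin.succAboveCases j ?_ (fun i => ?_) k
  · rw [theta_same, hz]
  · rw [theta_succAbove, nrm_co, norm_smul, h1, mul_one, Pi.smul_apply, smul_eq_mul, norm_inv,
      norm_norm, inv_inv, ← mul_assoc, mul_inv_cancel₀ h2.ne', one_mul]
    rfl

theorem theta_injective (j : Fin (d + 1)) : Function.Injective (theta (d := d) hc hc1 j) := by
  intro u v h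
  have hu : 0 < ‖u.co‖ := norm_pos_iff.2 u.co_ne_zero
  have hv : 0 < ‖v.co‖ := norm_pos_iff.2 v.co_ne_zero
  apply Sph.eq_of_smul (r := ‖u.co‖ * ‖v.co‖⁻¹) (by positivity)
  funext i
  have h1 : (theta hc hc1 j u).1 (j.succAbove i) = (theta hc hc1 j v).1 (j.succAbove i) := by
    rw [h]
  rw [theta_succAbove, theta_succAbove] at h1
  rw [Pi.smul_apply, smul_eq_mul, mul_assoc, ← h1, ← mul_assoc, mul_inv_cancel₀ hu.ne', one_mul]

/-- the standard parametrisation of a thick hyperplane -/
noncomputable def phiFun (j : Fin (d + 1)) (u : Sph d) : RP d :=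
  proj ((fhom hc hc1 hM).symm (theta hc hc1 j u))

theorem phi_coord (j : Fin (d + 1)) (u : Sph d) :
    (M *ᵥ ((fhom hc hc1 hM).symm (theta hc hc1 j u)).co) j = c := by
  rw [← fhom_eq_iff hc hc1 hM, Homeomorph.apply_symm_apply]
  exact theta_same hc hc1 j u

theorem phiFun_mem (j : Fin (d + 1)) (u : Sph d) : phiFun hc hc1 hM j u ∈ hyp c M j :=
  ⟨_, by
    change |(M *ᵥ ((fhom hc hc1 hM).symm (theta hc hc1 j u)).co) j| = c
    rw [phi_coord, abs_of_pos hc], rfl⟩

theorem continuous_phiFun (j : Fin (d + 1)) : Continuous (phiFun hc hc1 hM j) :=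
  continuous_proj.comp ((fhom hc hc1 hM).symm.continuous.comp (continuous_theta hc hc1 j))

theorem phiFun_injective (j : Fin (d + 1)) : Function.Injective (phiFun hc hc1 hM j) := by
  intro u v h
  rcases proj_eq_iff.1 h with h | h
  · exact (theta_injective hc hc1 j ((fhom hc hc1 hM).symm.injective h)).symm
  · exfalso
    have h1 := phi_coord hc hc1 hM j v
    rw [h] at h1
    have h2 : ∀ x : Sph (d + 1), (M *ᵥ (-x).co) j = -(M *ᵥ x.co) j := by
      intro x
      have : (-x).co = -x.co := rfl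
      rw [this, mulVec_neg, Pi.neg_apply]
    rw [h2, phi_coord] at h1
    linarith

theorem phiFun_surj (j : Fin (d + 1)) {p : RP d} (hp : p ∈ hyp c M j) :
    ∃ u, phiFun hc hc1 hM j u = p := by
  obtain ⟨x, hx, rfl⟩ := hp
  have hx : |(M *ᵥ x.co) j| = c := hx
  have key : ∀ y : Sph (d + 1), (M *ᵥ y.co) j = c → ∃ u, phiFun hc hc1 hM j u = proj y := by
    intro y hy
    have hz : (fhom hc hc1 hM y).1 j = c := (fhom_eq_iff hc hc1 hM y j).2 hy
    refine ⟨nrm _ (Cb.removeNth_ne_zero hc1 hz hc), ?_⟩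
    rw [phiFun, theta_nrm hc hc1 hz, Homeomorph.symm_apply_apply]
  rcases abs_choice ((M *ᵥ x.co) j) with h | h
  · exact key x (by rw [← h, hx])
  · obtain ⟨u, hu⟩ := key (-x) (by
      have h1 : (-x).co = -x.co := rfl
      rw [h1, mulVec_neg, Pi.neg_apply, ← h, hx])
    exact ⟨u, by rw [hu, proj_neg]⟩

/-- the standard parametrisation as a homeomorphism onto the thick hyperplane -/
noncomputable def phi (j : Fin (d + 1)) {X : Set (RP d)} (hX : hyp c M j = X) : Sph d ≃ₜ X :=
  Continuous.homeoOfEquivCompactToT2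
    (f := Equiv.ofBijective (fun u => (⟨phiFun hc hc1 hM j u, hX ▸ phiFun_mem hc hc1 hM j u⟩ : X))
      ⟨fun u v h => phiFun_injective hc hc1 hM j (congrArg Subtype.val h), fun p => by
        obtain ⟨u, hu⟩ := phiFun_surj hc hc1 hM j (p := p.1) (by rw [hX]; exact p.2)
        exact ⟨u, Subtype.ext hu⟩⟩)
    ((continuous_phiFun hc hc1 hM j).subtype_mk _)

theorem phi_apply (j : Fin (d + 1)) {X : Set (RP d)} (hX : hyp c M j = X) (u : Sph d) :
    (phi hc hc1 hM j hX u : RP d) = phiFun hc hc1 hM j u := rfl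

theorem hmap_phiFun (j : Fin (d + 1)) (u : Sph d) :
    hmap hc hc1 hM hM' (phiFun hc hc1 hM j u) = phiFun hc hc1 hM' j u := by
  rw [phiFun, hmap_proj, Homeomorph.apply_symm_apply]
  rfl

end

end Pool.Agent.Helper80.DPH
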