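import Pool.Agent.Helper80.DPH.Defs

/-!
# Straightening

For an invertible matrix `M` and a small `c`, a homeomorphism from the Euclidean sphere to the
boundary of the cube, commuting with the antipodal maps, and carrying `{|(M x)_j| = c}` onto
`{|z_j| = c}` for all `j` simultaneously.
-/

namespace Pool.Agent.Helper80.DPH

open Matrix

/-! ### One variable -/

/-- truncation at `± c` -/
noncomputable def cl (c t : ℝ) : ℝ := max (-c) (min t c)

theorem cl_of_le {c t : ℝ} (ht : |t| ≤ c) : cl c t = t := by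
  rw [abs_le] at ht
  rw [cl, min_eq_left ht.2, max_eq_right ht.1]

theorem cl_of_gt {c t : ℝ} (hc : 0 < c) (ht : c < t) : cl c t = c := by
  rw [cl, min_eq_right ht.le, max_eq_right (by linarith)]

theorem cl_of_lt {c t : ℝ} (hc : 0 < c) (ht : t < -c) : cl c t = -c := by
  rw [cl, min_eq_left (by linarith), max_eq_left ht.le]

theorem abs_cl_le {c : ℝ} (hc : 0 < c) (t : ℝ) : |cl c t| ≤ c := by
  rw [abs_le, cl]
  exact ⟨le_max_left _ _, max_le (by linarith) (min_le_right _ _)⟩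

theorem cl_neg {c : ℝ} (hc : 0 < c) (t : ℝ) : cl c (-t) = -cl c t := by
  rcases le_or_gt |t| c with h | h
  · rw [cl_of_le h, cl_of_le (by rwa [abs_neg])]
  · rcases lt_abs.1 h with h | h
    · rw [cl_of_gt hc h, cl_of_lt hc (by linarith)]
    · rw [cl_of_gt hc (show c < -t from h), cl_of_lt hc (show t < -c by linarith), neg_neg]

theorem continuous_cl (c : ℝ) : Continuous (cl c) := by
  unfold cl
  fun_prop

/-- the stretching of the part outside `[-c, c]` by the factor `τ` -/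
noncomputable def st (c τ t : ℝ) : ℝ := cl c t + τ * (t - cl c t)

theorem st_of_le {c τ t : ℝ} (ht : |t| ≤ c) : st c τ t = t := by
  rw [st, cl_of_le ht]; ring

theorem st_of_gt {c τ t : ℝ} (hc : 0 < c) (ht : c < t) : st c τ t = c + τ * (t - c) := by
  rw [st, cl_of_gt hc ht]

theorem st_of_lt {c τ t : ℝ} (hc : 0 < c) (ht : t < -c) : st c τ t = -c + τ * (t + c) := by
  rw [st, cl_of_lt hc ht]; ring

theorem st_neg {c : ℝ} (hc : 0 < c) (τ t : ℝ) : st c τ (-t) = -st c τ t := by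
  rw [st, st, cl_neg hc]; ring

theorem cl_st {c τ : ℝ} (hc : 0 < c) (hτ : 0 < τ) (t : ℝ) : cl c (st c τ t) = cl c t := by
  rcases le_or_gt |t| c with h | h
  · rw [st_of_le h]
  · rcases lt_abs.1 h with h | h
    · rw [st_of_gt hc h, cl_of_gt hc h, cl_of_gt hc]
      nlinarith [mul_pos hτ (sub_pos.2 h)]
    · have h' : t < -c := by linarith
      rw [st_of_lt hc h', cl_of_lt hc h', cl_of_lt hc]
      nlinarith [mul_pos hτ (sub_pos.2 h)]

theorem st_st {c τ : ℝ} (hc : 0 < c) (hτ : 0 < τ) (σ t : ℝ) :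
    st c σ (st c τ t) = st c (σ * τ) t := by
  rw [st, cl_st hc hτ, st, st]; ring

theorem st_one (c t : ℝ) : st c 1 t = t := by
  rw [st]; ring

theorem abs_st_of_gt {c τ t : ℝ} (hc : 0 < c) (hτ : 0 < τ) (ht : c < |t|) :
    |st c τ t| = c + τ * (|t| - c) := by
  rcases lt_abs.1 ht with h | h
  · rw [st_of_gt hc h, abs_of_pos (hc.trans h), abs_of_pos]
    nlinarith [mul_pos hτ (sub_pos.2 h)]
  · have h' : t < -c := by linarith
    rw [st_of_lt hc h', abs_of_neg (show t < 0 by linarith), abs_of_neg]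
    · ring
    · nlinarith [mul_pos hτ (sub_pos.2 h)]

theorem abs_st_eq_iff {c τ : ℝ} (hc : 0 < c) (hτ : 0 < τ) (t : ℝ) :
    |st c τ t| = c ↔ |t| = c := by
  rcases le_or_gt |t| c with h | h
  · rw [st_of_le h]
  · rw [abs_st_of_gt hc hτ h]
    have := mul_pos hτ (sub_pos.2 h)
    constructor <;> intro h' <;> linarith

/-- the positive factor relating `st c τ t` to `t` -/
theorem exists_st_eq_mul {c τ : ℝ} (hc : 0 < c) (hτ : 0 < τ) (t : ℝ) :
    ∃ μ : ℝ, 0 < μ ∧ st c τ t = μ * t := by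
  rcases le_or_gt |t| c with h | h
  · exact ⟨1, one_pos, by rw [st_of_le h, one_mul]⟩
  · rcases lt_abs.1 h with h | h
    · refine ⟨(c + τ * (t - c)) / t, div_pos ?_ (hc.trans h), ?_⟩
      · nlinarith [mul_pos hτ (sub_pos.2 h)]
      · rw [st_of_gt hc h, div_mul_cancel₀ _ (hc.trans h).ne']
    · have h' : t < -c := by linarith
      have h0 : t < 0 := by linarith
      refine ⟨(-c + τ * (t + c)) / t, div_pos_of_neg_of_neg ?_ h0, ?_⟩
      · nlinarith [mul_pos hτ (sub_pos.2 h)]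
      · rw [st_of_lt hc h', div_mul_cancel₀ _ h0.ne]

theorem st_eq_self_of_eq {c τ : ℝ} (hc : 0 < c) : st c τ c = c := by
  rw [st_of_le]; rw [abs_of_pos hc]

theorem st_eq_iff {c τ : ℝ} (hc : 0 < c) (hτ : 0 < τ) (t : ℝ) : st c τ t = c ↔ t = c := by
  constructor
  · intro h
    have := congrArg (st c τ⁻¹) h
    rwa [st_st hc hτ, inv_mul_cancel₀ hτ.ne', st_one, st_eq_self_of_eq hc] at this
  · rintro rfl
    exact st_eq_self_of_eq hc

/-! ### Several variables -/

variable {m : ℕ}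

/-- coordinatewise stretching -/
noncomputable def strc (c τ : ℝ) (y : Fin m → ℝ) : Fin m → ℝ := fun k => st c τ (y k)

theorem exists_abs_eq_norm {y : Fin m → ℝ} (hy : 0 < ‖y‖) : ∃ k, |y k| = ‖y‖ := by
  by_contra h
  push Not at h
  have : ‖y‖ < ‖y‖ :=
    (pi_norm_lt_iff hy).2 fun k => lt_of_le_of_ne (norm_le_pi_norm y k) (h k)
  exact lt_irrefl _ this

theorem norm_strc {c τ : ℝ} (hc : 0 < c) (hτ : 0 < τ) {y : Fin m → ℝ} (hy : c < ‖y‖) :
    ‖strc c τ y‖ = c + τ * (‖y‖ - c) := by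
  obtain ⟨k, hk⟩ := exists_abs_eq_norm (hc.trans hy)
  have hpos : 0 < c + τ * (‖y‖ - c) := by nlinarith [mul_pos hτ (sub_pos.2 hy)]
  apply le_antisymm
  · rw [pi_norm_le_iff_of_nonneg hpos.le]
    intro l
    rcases le_or_gt |y l| c with h | h
    · have h1 : ‖strc c τ y l‖ = |y l| := by rw [strc, st_of_le h]; rfl
      rw [h1]
      nlinarith [mul_pos hτ (sub_pos.2 hy)]
    · have h1 : ‖strc c τ y l‖ = c + τ * (|y l| - c) := abs_st_of_gt hc hτ h
      rw [h1]
      have : |y l| ≤ ‖y‖ := norm_le_pi_norm y l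
      nlinarith
  · have h1 : ‖strc c τ y k‖ = c + τ * (|y k| - c) := abs_st_of_gt hc hτ (by rw [hk]; exact hy)
    rw [hk] at h1
    rw [← h1]
    exact norm_le_pi_norm _ k

/-- the straightening stretch factor -/
noncomputable def fac (c : ℝ) (y : Fin m → ℝ) : ℝ := (1 - c) / (‖y‖ - c)

theorem fac_pos {c : ℝ} (hc1 : c < 1) {y : Fin m → ℝ} (hy : c < ‖y‖) : 0 < fac c y :=
  div_pos (by linarith) (by linarith)

/-- the straightening in the target coordinates -/
noncomputable def str (c : ℝ) (y : Fin m → ℝ) : Fin m → ℝ := strc c (fac c y) y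

theorem norm_str {c : ℝ} (hc : 0 < c) (hc1 : c < 1) {y : Fin m → ℝ} (hy : c < ‖y‖) :
    ‖str c y‖ = 1 := by
  rw [str, norm_strc hc (fac_pos hc1 hy) hy, fac, div_mul_cancel₀ _ (by linarith)]
  ring

/-- the Euclidean vector with given coordinates -/
abbrev vec (x : Fin m → ℝ) : EuclideanSpace ℝ (Fin m) := WithLp.toLp 2 x

/-- The conditions on a matrix under which the straightening works. -/
structure Good (c : ℝ) (M : Matrix (Fin m) (Fin m) ℝ) : Prop where
  det_ne : M.det ≠ 0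
  small : ∀ x : Fin m → ℝ, ‖M *ᵥ x‖ ≤ c → ‖vec x‖ < 1

/-- the boundary of the cube -/
abbrev Cb (m : ℕ) : Type := Metric.sphere (0 : Fin m → ℝ) 1

theorem Sph.norm_eq (x : Sph m) : ‖x.1‖ = 1 := by
  have := x.2
  rwa [mem_sphere_zero_iff_norm] at this

theorem Cb.norm_eq (x : Cb m) : ‖x.1‖ = 1 := by
  have := x.2
  rwa [mem_sphere_zero_iff_norm] at this

/-- the coordinates of a point of the sphere -/
abbrev Sph.co (x : Sph m) : Fin m → ℝ := WithLp.ofLp x.1

theorem Good.lt_norm {c : ℝ} {M : Matrix (Fin m) (Fin m) ℝ} (hM : Good c M) (x : Sph m) :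
    c < ‖M *ᵥ x.co‖ := by
  by_contra h
  have := hM.small x.co (not_lt.1 h)
  rw [vec, WithLp.toLp_ofLp, x.norm_eq] at this
  exact lt_irrefl _ this

/-- the straightening map -/
noncomputable def fmap {c : ℝ} (hc : 0 < c) (hc1 : c < 1) {M : Matrix (Fin m) (Fin m) ℝ}
    (hM : Good c M) (x : Sph m) : Cb m :=
  ⟨str c (M *ᵥ x.co), by
    rw [mem_sphere_zero_iff_norm]
    exact norm_str hc hc1 (hM.lt_norm x)⟩

section

variable {c : ℝ} (hc : 0 < c) (hc1 : c < 1) {M : Matrix (Fin m) (Fin m) ℝ} (hM : Good c M)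

theorem continuous_fmap : Continuous (fmap hc hc1 hM) := by
  apply Continuous.subtype_mk
  have h1 : Continuous fun x : Sph m => M *ᵥ x.co :=
    Continuous.matrix_mulVec continuous_const
      ((PiLp.continuous_ofLp 2 _).comp continuous_subtype_val)
  have h2 : Continuous fun x : Sph m => fac c (M *ᵥ x.co) := by
    unfold fac
    refine Continuous.div continuous_const (h1.norm.sub continuous_const) fun x => ?_
    have := hM.lt_norm x
    exact (sub_pos.2 this).ne'
  apply continuous_pi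
  intro k
  have h3 : Continuous fun x : Sph m => (M *ᵥ x.co) k := (continuous_apply k).comp h1
  have h4 : Continuous fun x : Sph m => cl c ((M *ᵥ x.co) k) := (continuous_cl c).comp h3
  exact h4.add (h2.mul (h3.sub h4))

theorem strc_inv {τ : ℝ} (hc : 0 < c) (hτ : 0 < τ) (y : Fin m → ℝ) :
    strc c τ⁻¹ (strc c τ y) = y := by
  funext k
  rw [strc, strc, st_st hc hτ, inv_mul_cancel₀ hτ.ne', st_one]

/-- the curve of candidates for the preimage of a point of the cube -/
theorem strc_lin (z : Fin m → ℝ) (σ : ℝ) :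
    strc c σ z = (fun k => cl c (z k)) + σ • (z - fun k => cl c (z k)) := by
  funext k
  simp [strc, st]

theorem norm_cl_le (hc : 0 < c) (z : Fin m → ℝ) : ‖fun k => cl c (z k)‖ ≤ c := by
  rw [pi_norm_le_iff_of_nonneg hc.le]
  intro k
  exact abs_cl_le hc _

include hM in
theorem Good.exists_preimage (y : Fin m → ℝ) : ∃ x : Fin m → ℝ, M *ᵥ x = y := by
  have hu : IsUnit M.det := isUnit_iff_ne_zero.2 hM.det_ne
  exact ⟨M⁻¹ *ᵥ y, by rw [mulVec_mulVec, mul_nonsing_inv _ hu, one_mulVec]⟩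

include hM in
theorem Good.injective {x y : Fin m → ℝ} (h : M *ᵥ x = M *ᵥ y) : x = y := by
  have hu : IsUnit M.det := isUnit_iff_ne_zero.2 hM.det_ne
  have := congrArg (M⁻¹ *ᵥ ·) h
  simpa [mulVec_mulVec, nonsing_inv_mul _ hu] using this

theorem fmap_injective_aux (hM : Good c M) (hc : 0 < c) {x x' : Sph m} {z : Fin m → ℝ} {σ σ' : ℝ}
    (hσ : 0 < σ)
    (hx : M *ᵥ x.co = strc c σ z) (hx' : M *ᵥ x'.co = strc c σ' z) : ¬ σ < σ' := by
  intro hlt
  obtain ⟨p, hp⟩ := hM.exists_preimage (fun k => cl c (z k))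
  have hp1 : ‖vec p‖ < 1 := hM.small p (by rw [hp]; exact norm_cl_le hc z)
  have hσ' : 0 < σ' := hσ.trans hlt
  have key : x.co = (1 - σ / σ') • p + (σ / σ') • x'.co := by
    apply hM.injective
    rw [hx, mulVec_add, mulVec_smul, mulVec_smul, hp, hx', strc_lin, strc_lin]
    funext k
    simp only [Pi.add_apply, Pi.smul_apply, Pi.sub_apply, smul_eq_mul]
    field_simp
    ring
  have h0 : 0 < σ / σ' := div_pos hσ hσ'
  have h1 : σ / σ' < 1 := (div_lt_one hσ').2 hlt
  have e : x.1 = (1 - σ / σ') • vec p + (σ / σ') • x'.1 := by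
    exact congrArg (WithLp.toLp 2) key
  have : ‖x.1‖ < 1 := by
    rw [e]
    calc ‖(1 - σ / σ') • vec p + (σ / σ') • x'.1‖
        ≤ ‖(1 - σ / σ') • vec p‖ + ‖(σ / σ') • x'.1‖ := norm_add_le _ _
      _ = (1 - σ / σ') * ‖vec p‖ + (σ / σ') * 1 := by
          rw [norm_smul, norm_smul, Real.norm_of_nonneg (by linarith), Real.norm_of_nonneg h0.le,
            x'.norm_eq]
      _ < (1 - σ / σ') * 1 + (σ / σ') * 1 := by
          have := mul_lt_mul_of_pos_left hp1 (show 0 < 1 - σ / σ' by linarith)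
          linarith
      _ = 1 := by ring
  rw [x.norm_eq] at this
  exact lt_irrefl _ this

theorem fmap_injective : Function.Injective (fmap hc hc1 hM) := by
  intro x x' h
  have hz : str c (M *ᵥ x.co) = str c (M *ᵥ x'.co) := congrArg Subtype.val h
  have hτ := fac_pos hc1 (hM.lt_norm x)
  have hτ' := fac_pos hc1 (hM.lt_norm x')
  set z := str c (M *ᵥ x.co) with hzdef
  have e1 : M *ᵥ x.co = strc c (fac c (M *ᵥ x.co))⁻¹ z := by
    rw [hzdef, str, strc_inv hc hτ]
  have e2 : M *ᵥ x'.co = strc c (fac c (M *ᵥ x'.co))⁻¹ z := by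
    rw [hz, str, strc_inv hc hτ']
  have h1 := fmap_injective_aux hM hc (inv_pos.2 hτ) e1 e2
  have h2 := fmap_injective_aux hM hc (inv_pos.2 hτ') e2 e1
  have h3 := le_antisymm (not_lt.1 h2) (not_lt.1 h1)
  have h4 : M *ᵥ x.co = M *ᵥ x'.co := by rw [e1, e2, h3]
  have h5 : x.co = x'.co := hM.injective h4
  apply Subtype.ext
  have := congrArg vec h5
  exact this

theorem fmap_surjective : Function.Surjective (fmap hc hc1 hM) := by
  intro z
  have hz1 : ‖z.1‖ = 1 := z.norm_eq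
  obtain ⟨p, hp⟩ := hM.exists_preimage (fun k => cl c (z.1 k))
  obtain ⟨q, hq⟩ := hM.exists_preimage (z.1 - fun k => cl c (z.1 k))
  have hp1 : ‖vec p‖ < 1 := hM.small p (by rw [hp]; exact norm_cl_le hc _)
  have hq0 : vec q ≠ 0 := by
    intro h0
    have hq' : q = 0 := by
      have := congrArg WithLp.ofLp h0
      exact this
    rw [hq', mulVec_zero] at hq
    have : z.1 = fun k => cl c (z.1 k) := (sub_eq_zero.1 hq.symm)
    have h2 := norm_cl_le hc z.1
    rw [← this, hz1] at h2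
    linarith
  have hqn : 0 < ‖vec q‖ := norm_pos_iff.2 hq0
  set F : ℝ → ℝ := fun σ => ‖vec p + σ • vec q‖ with hF
  have hFc : Continuous F := by
    rw [hF]; fun_prop
  have hF0 : F 0 < 1 := by simpa [hF] using hp1
  have hF1 : 1 ≤ F (2 / ‖vec q‖) := by
    have h1 : ‖(2 / ‖vec q‖) • vec q‖ = 2 := by
      rw [norm_smul, Real.norm_of_nonneg (by positivity), div_mul_cancel₀ _ hqn.ne']
    have h2 : ‖(2 / ‖vec q‖) • vec q‖ ≤ ‖vec p + (2 / ‖vec q‖) • vec q‖ + ‖vec p‖ := by
      have := norm_sub_le (vec p + (2 / ‖vec q‖) • vec q) (vec p)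
      rwa [add_sub_cancel_left] at this
    have h3 : F (2 / ‖vec q‖) = ‖vec p + (2 / ‖vec q‖) • vec q‖ := rfl
    linarith
  obtain ⟨σ, hσ, hFσ⟩ := intermediate_value_Icc (show (0 : ℝ) ≤ 2 / ‖vec q‖ by positivity)
    hFc.continuousOn (show (1 : ℝ) ∈ Set.Icc (F 0) (F (2 / ‖vec q‖)) from ⟨hF0.le, hF1⟩)
  have hσ0 : 0 < σ := by
    rcases hσ.1.lt_or_eq with h | h
    · exact h
    · rw [← h] at hFσ
      linarith
  have hmem : ‖vec p + σ • vec q‖ = 1 := hFσ
  refine ⟨⟨vec p + σ • vec q, by rw [mem_sphere_zero_iff_norm]; exact hmem⟩, ?_⟩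
  apply Subtype.ext
  have hco : M *ᵥ (p + σ • q) = strc c σ z.1 := by
    rw [mulVec_add, mulVec_smul, hp, hq, strc_lin]
  have hgoal : str c (M *ᵥ (p + σ • q)) = z.1 := by
    rw [hco, str]
    have hn : ‖strc c σ z.1‖ = c + σ * (1 - c) := by
      rw [norm_strc hc hσ0 (by rw [hz1]; exact hc1), hz1]
    have hfac : fac c (strc c σ z.1) = σ⁻¹ := by
      rw [fac, hn, add_sub_cancel_left, mul_comm, div_mul_eq_div_div, div_self (by linarith),
        one_div]
    rw [hfac, strc_inv hc hσ0]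
  exact hgoal

/-- the straightening homeomorphism -/
noncomputable def fhom : Sph m ≃ₜ Cb m :=
  Continuous.homeoOfEquivCompactToT2
    (f := Equiv.ofBijective (fmap hc hc1 hM) ⟨fmap_injective hc hc1 hM, fmap_surjective hc hc1 hM⟩)
    (continuous_fmap hc hc1 hM)

theorem fhom_apply (x : Sph m) : (fhom hc hc1 hM x).1 = str c (M *ᵥ x.co) := rfl

theorem fhom_neg (x : Sph m) : fhom hc hc1 hM (-x) = -fhom hc hc1 hM x := by
  apply Subtype.ext
  rw [fhom_apply]
  change _ = -(fhom hc hc1 hM x).1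
  rw [fhom_apply]
  have h1 : (-x : Sph m).co = -x.co := rfl
  rw [h1, mulVec_neg]
  funext k
  simp only [str, strc, fac, norm_neg, Pi.neg_apply, st_neg hc]

theorem fhom_symm_neg (z : Cb m) : (fhom hc hc1 hM).symm (-z) = -(fhom hc hc1 hM).symm z := by
  apply (fhom hc hc1 hM).injective
  rw [fhom_neg, Homeomorph.apply_symm_apply, Homeomorph.apply_symm_apply]

theorem abs_fhom_eq_iff (x : Sph m) (k : Fin m) :
    |(fhom hc hc1 hM x).1 k| = c ↔ |(M *ᵥ x.co) k| = c := by
  rw [fhom_apply]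
  exact abs_st_eq_iff hc (fac_pos hc1 (hM.lt_norm x)) _

theorem fhom_eq_iff (x : Sph m) (k : Fin m) :
    (fhom hc hc1 hM x).1 k = c ↔ (M *ᵥ x.co) k = c := by
  rw [fhom_apply]
  exact st_eq_iff hc (fac_pos hc1 (hM.lt_norm x)) _

theorem exists_fhom_eq_mul (x : Sph m) (k : Fin m) :
    ∃ μ : ℝ, 0 < μ ∧ (fhom hc hc1 hM x).1 k = μ * (M *ᵥ x.co) k := by
  rw [fhom_apply]
  exact exists_st_eq_mul hc (fac_pos hc1 (hM.lt_norm x)) _

end

end Pool.Agent.Helper80.DPH
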